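import Pool.Agent.H40.PZ.Tri

/-!
# PZ-08: the dimension count (linear algebra over `ZMod 2`)

`W = Ed n → ZMod 2`, `finrank W = card (Ed n) = n.choose 2` (`Fintype.card_finset_len`).
`δ : (Fin n → ZMod 2) → W`, `δ φ e = ∑ k ∈ e, φ k`: its kernel consists of the constant functions (`φ i + φ j = 0` for `i ≠ j`), of dimension 1 (`0 < n`), so `C0 = range δ` has dimension `n - 1`.
`ρ : W → (T' → ZMod 2)`, `ρ S t = ∑ e, if e ⊆ t then S e else 0`.  `ρ` is onto: otherwise some nonzero functional vanishes on the range, that is there is `c : T' → ZMod 2`, `c ≠ 0`, with `∑ t, c t * ρ S t = 0` for all `S`;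
for `S = Pi.single e 1`: `∑ (t ∈ T', e ⊆ t) c t = 0`, so `J = {t ∈ T' | c t = 1}` is nonempty and contains an even number of `t ⊇ e` for every `e`: contradiction to `hind`.
(Or: rank of a matrix is the rank of its transpose.)  So `Z' = ker ρ` has dimension `n.choose 2 - card T'`.
`C0 ≤ Z'`: `t ∈ T'`, `card t = 3`: the sum over the three two-element subsets `e` of `t` of `∑ k ∈ e, φ k` contains every `φ k`, `k ∈ t`, twice.
`h` maps `Z` into `Z'` (`h2`).  Let `q : W → W ⧸ C0` be the quotient map.  By `h3` the kernel of `q ∘ h` is contained in `B`.  So `finrank (Z ⧸ B) ≤ finrank (range (q ∘ h))` (`Z ⧸ ker (q ∘ h) ≃ range (q ∘ h)` is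
finite dimensional and maps onto `Z ⧸ B`) `≤ finrank (Z'.map q) = finrank Z' - finrank C0` (`Z'.map q ≃ Z' ⧸ C0`; or: the map `Z' → Z'.map q` is onto with kernel `C0 ⊓ Z' = C0`).
Together: `finrank (Z ⧸ B) ≤ n.choose 2 - card T' - (n - 1)`, where `card T' ≤ n.choose 2` etc. follow from the same formulas (rank-nullity as equations without subtraction).
-/

namespace Pool.Agent.H40.PZ

open Module

private theorem Alg_zero_or_one (c : ZMod 2) : c = 0 ∨ c = 1 := by
  revert c
  decide

/-- the linear map of the triangle functionals -/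
private noncomputable def Alg_rho {n : ℕ} (T' : Finset (Finset (Fin n))) :
    (Ed n → ZMod 2) →ₗ[ZMod 2] (T' → ZMod 2) where
  toFun S := fun t => ∑ e : Ed n, (if e.1 ⊆ t.1 then S e else 0)
  map_add' S S' := by
    funext t
    simp only [Pi.add_apply]
    rw [← Finset.sum_add_distrib]
    refine Finset.sum_congr rfl fun e _ => ?_
    by_cases h : e.1 ⊆ t.1
    · simp [h]
    · simp [h]
  map_smul' c S := by
    funext t
    simp only [Pi.smul_apply, smul_eq_mul, RingHom.id_apply]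
    rw [Finset.mul_sum]
    refine Finset.sum_congr rfl fun e _ => ?_
    by_cases h : e.1 ⊆ t.1
    · simp [h]
    · simp [h]

private theorem Alg_rho_apply {n : ℕ} (T' : Finset (Finset (Fin n))) (S : Ed n → ZMod 2) (t : T') :
    Alg_rho T' S t = ∑ e : Ed n, (if e.1 ⊆ t.1 then S e else 0) := rfl

private theorem Alg_rho_surj {n : ℕ} (T' : Finset (Finset (Fin n)))
    (hind : ∀ J ⊆ T', (∀ e : Finset (Fin n), e.card = 2 →
      Even (J.filter (fun t => e ⊆ t)).card) → J = ∅) : LinearMap.range (Alg_rho T') = ⊤ := by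
  classical
  by_contra hne
  obtain ⟨f, hf0, hf⟩ := Submodule.exists_le_ker_of_lt_top _ (lt_top_iff_ne_top.2 hne)
  set c : T' → ZMod 2 := fun t => f (fun j => if t = j then 1 else 0) with hc
  have hfy : ∀ y : T' → ZMod 2, f y = ∑ t, y t * c t := by
    intro y
    rw [LinearMap.pi_apply_eq_sum_univ f y]
    rfl
  have hsum : ∀ e : Ed n, ∑ t : T', (if e.1 ⊆ t.1 then (1 : ZMod 2) else 0) * c t = 0 := by
    intro e
    have h1 : Alg_rho T' (Pi.single e 1) ∈ LinearMap.ker f := hf ⟨_, rfl⟩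
    rw [LinearMap.mem_ker, hfy] at h1
    refine Eq.trans (Finset.sum_congr rfl fun t _ => ?_) h1
    rw [Alg_rho_apply, Finset.sum_eq_single e]
    · rw [Pi.single_eq_same]
    · intro e' _ he'
      rw [Pi.single_eq_of_ne he']
      simp
    · intro h
      exact absurd (Finset.mem_univ _) h
  set J : Finset (Finset (Fin n)) :=
    (Finset.univ.filter (fun t : T' => c t = 1)).map (Function.Embedding.subtype _) with hJ
  have hJm : ∀ t, t ∈ J ↔ ∃ h : t ∈ T', c ⟨t, h⟩ = 1 := by
    intro t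
    rw [hJ, Finset.mem_map]
    constructor
    · rintro ⟨⟨a, ha⟩, h1, rfl⟩
      exact ⟨ha, (Finset.mem_filter.1 h1).2⟩
    · rintro ⟨h, h1⟩
      exact ⟨⟨t, h⟩, Finset.mem_filter.2 ⟨Finset.mem_univ _, h1⟩, rfl⟩
  have hJ0 : J = ∅ := by
    refine hind J (fun t ht => ((hJm t).1 ht).1) fun e he => ?_
    have h1 := hsum ⟨e, he⟩
    have h2 : ((J.filter (fun t => e ⊆ t)).card : ZMod 2) =
        ∑ t : T', (if e ⊆ t.1 then (1 : ZMod 2) else 0) * c t := by
      have h3 : J.filter (fun t => e ⊆ t) =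
          (Finset.univ.filter (fun t : T' => c t = 1 ∧ e ⊆ t.1)).map
            (Function.Embedding.subtype _) := by
        ext t
        rw [Finset.mem_filter, hJm, Finset.mem_map]
        constructor
        · rintro ⟨⟨h, h4⟩, h5⟩
          exact ⟨⟨t, h⟩, Finset.mem_filter.2 ⟨Finset.mem_univ _, h4, h5⟩, rfl⟩
        · rintro ⟨⟨a, ha⟩, h4, rfl⟩
          have h5 := (Finset.mem_filter.1 h4).2
          exact ⟨⟨ha, h5.1⟩, h5.2⟩
      rw [h3, Finset.card_map, Finset.card_filter, Nat.cast_sum]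
      refine Finset.sum_congr rfl fun t _ => ?_
      by_cases h4 : e ⊆ t.1
      · rcases Alg_zero_or_one (c t) with h5 | h5
        · simp [h5]
        · simp [h5, h4]
      · simp [h4]
    rw [h1] at h2
    exact (ZMod.natCast_eq_zero_iff_even).1 h2
  apply hf0
  refine LinearMap.ext fun y => ?_
  rw [hfy, LinearMap.zero_apply]
  refine Finset.sum_eq_zero fun t _ => ?_
  rcases Alg_zero_or_one (c t) with h5 | h5
  · rw [h5, mul_zero]
  · have h6 : t.1 ∈ J := (hJm t.1).2 ⟨t.2, h5⟩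
    rw [hJ0] at h6
    exact absurd h6 (Finset.notMem_empty _)

/-- the coboundary of a 0-cochain -/
private noncomputable def Alg_del (n : ℕ) : (Fin n → ZMod 2) →ₗ[ZMod 2] (Ed n → ZMod 2) where
  toFun φ := fun e => ∑ k ∈ e.1, φ k
  map_add' φ ψ := by
    funext e
    simp only [Pi.add_apply]
    rw [← Finset.sum_add_distrib]
  map_smul' c φ := by
    funext e
    simp only [Pi.smul_apply, smul_eq_mul, RingHom.id_apply]
    rw [Finset.mul_sum]

private theorem Alg_del_apply {n : ℕ} (φ : Fin n → ZMod 2) (e : Ed n) :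
    Alg_del n φ e = ∑ k ∈ e.1, φ k := rfl

private theorem Alg_ker_del {n : ℕ} (hn : 0 < n) :
    finrank (ZMod 2) (LinearMap.ker (Alg_del n)) ≤ 1 := by
  have h1 : LinearMap.ker (Alg_del n) ≤ Submodule.span (ZMod 2) {fun _ : Fin n => (1 : ZMod 2)} := by
    intro φ hφ
    rw [Submodule.mem_span_singleton]
    refine ⟨φ ⟨0, hn⟩, ?_⟩
    funext j
    simp only [Pi.smul_apply, smul_eq_mul, mul_one]
    by_cases hj : (⟨0, hn⟩ : Fin n) = j
    · rw [hj]
    · have h2 : Alg_del n φ ⟨{⟨0, hn⟩, j}, Finset.card_pair hj⟩ = 0 := by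
        rw [LinearMap.mem_ker.1 hφ]
        rfl
      rw [Alg_del_apply, Finset.sum_pair hj] at h2
      have h3 := CharTwo.add_eq_zero.1 h2
      exact h3
  refine (Submodule.finrank_mono h1).trans ?_
  exact (finrank_span_le_card _).trans (by simp)

private theorem Alg_sum_tri {n : ℕ} (φ : Fin n → ZMod 2) (t : Finset (Fin n)) (ht : t.card = 3) :
    ∑ e : Ed n, (if e.1 ⊆ t then ∑ k ∈ e.1, φ k else 0) = 0 := by
  classical
  have h1 : ∑ e : Ed n, (if e.1 ⊆ t then ∑ k ∈ e.1, φ k else 0) =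
      ∑ e ∈ Finset.powersetCard 2 t, ∑ k ∈ e, φ k := by
    rw [← Finset.sum_subtype (Finset.powersetCard 2 (Finset.univ : Finset (Fin n)))
      (p := fun e => e.card = 2) (by intro x; simp [Finset.mem_powersetCard])
      (fun e => if e ⊆ t then ∑ k ∈ e, φ k else 0)]
    rw [← Finset.sum_filter]
    refine Finset.sum_congr ?_ fun _ _ => rfl
    ext e
    simp only [Finset.mem_filter, Finset.mem_powersetCard, Finset.subset_univ, true_and]
    exact and_comm
  have h2 : ∑ m ∈ t, ∑ k ∈ t.erase m, φ k = ∑ e ∈ Finset.powersetCard 2 t, ∑ k ∈ e, φ k := by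
    refine Finset.sum_bij (fun m _ => t.erase m) ?_ ?_ ?_ ?_
    · intro m hm
      rw [Finset.mem_powersetCard]
      refine ⟨Finset.erase_subset _ _, ?_⟩
      rw [Finset.card_erase_of_mem hm, ht]
    · intro m hm m' _ h
      exact (Finset.erase_inj t hm).1 h
    · intro e he
      rw [Finset.mem_powersetCard] at he
      have h3 : (t \ e).card = 1 := by
        rw [Finset.card_sdiff_of_subset he.1, ht, he.2]
      obtain ⟨m, hm⟩ := Finset.card_eq_one.1 h3
      have h4 : m ∈ t \ e := by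
        rw [hm]
        exact Finset.mem_singleton_self _
      refine ⟨m, (Finset.mem_sdiff.1 h4).1, ?_⟩
      rw [← Finset.sdiff_singleton_eq_erase, ← hm, Finset.sdiff_sdiff_eq_self he.1]
    · intro m _
      rfl
  rw [h1, ← h2]
  have h3 : ∀ m ∈ t, ∑ k ∈ t.erase m, φ k = ∑ k ∈ t, φ k + φ m := by
    intro m hm
    rw [← Finset.sum_erase_add t φ hm, add_assoc, CharTwo.add_self_eq_zero, add_zero]
  rw [Finset.sum_congr rfl h3, Finset.sum_add_distrib, Finset.sum_const, ht]
  have h4 : (3 : ℕ) • (∑ k ∈ t, φ k) = ∑ k ∈ t, φ k := by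
    rw [succ_nsmul, two_nsmul, CharTwo.add_self_eq_zero, zero_add]
  rw [h4, CharTwo.add_self_eq_zero]

/-- independence of the triangle functionals -/
theorem tri_onto {n : ℕ} (T' : Finset (Finset (Fin n)))
    (hind : ∀ J ⊆ T', (∀ e : Finset (Fin n), e.card = 2 →
      Even (J.filter (fun t => e ⊆ t)).card) → J = ∅) :
    ∀ y : T' → ZMod 2, ∃ S : Ed n → ZMod 2, ∀ t : T',
      ∑ e : Ed n, (if e.1 ⊆ t.1 then S e else 0) = y t := by
  intro y
  have h1 : y ∈ LinearMap.range (Alg_rho T') := by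
    rw [Alg_rho_surj T' hind]
    exact Submodule.mem_top
  obtain ⟨S, hS⟩ := h1
  refine ⟨S, fun t => ?_⟩
  rw [← hS]
  rfl

theorem dim_count {n : ℕ} (hn : 0 < n) (T' : Finset (Finset (Fin n))) (hT : ∀ t ∈ T', t.card = 3)
    (hind : ∀ J ⊆ T', (∀ e : Finset (Fin n), e.card = 2 →
      Even (J.filter (fun t => e ⊆ t)).card) → J = ∅)
    {Z : Type*} [AddCommGroup Z] [Module (ZMod 2) Z] (B : Submodule (ZMod 2) Z)
    (h : Z →ₗ[ZMod 2] (Ed n → ZMod 2))
    (h2 : ∀ g, ∀ t ∈ T', ∑ e : Ed n, (if e.1 ⊆ t then h g e else 0) = 0)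
    (h3 : ∀ g, (∃ φ : Fin n → ZMod 2, ∀ e : Ed n, h g e = ∑ k ∈ e.1, φ k) → g ∈ B) :
    finrank (ZMod 2) (Z ⧸ B) + n + T'.card ≤ n.choose 2 + 1 := by
  classical
  -- dimension of the spaces
  have hW : finrank (ZMod 2) (Ed n → ZMod 2) = n.choose 2 := by
    rw [Module.finrank_fintype_fun_eq_card, Fintype.card_finset_len, Fintype.card_fin]
  have hd := LinearMap.finrank_range_add_finrank_ker (Alg_del n)
  rw [Module.finrank_fintype_fun_eq_card, Fintype.card_fin] at hd
  have hk := Alg_ker_del hn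
  have hr := LinearMap.finrank_range_add_finrank_ker (Alg_rho T')
  rw [Alg_rho_surj T' hind, finrank_top, Module.finrank_fintype_fun_eq_card, hW,
    Fintype.card_coe] at hr
  set C0 := LinearMap.range (Alg_del n) with hC0
  set Z' := LinearMap.ker (Alg_rho T') with hZ'
  have hle : C0 ≤ Z' := by
    rintro _ ⟨φ, rfl⟩
    rw [hZ', LinearMap.mem_ker]
    funext t
    rw [Alg_rho_apply]
    exact Alg_sum_tri φ t.1 (hT t.1 t.2)
  have hh : ∀ g, h g ∈ Z' := by
    intro g
    rw [hZ', LinearMap.mem_ker]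
    funext t
    rw [Alg_rho_apply]
    exact h2 g t.1 t.2
  set h' : Z →ₗ[ZMod 2] Z' := LinearMap.codRestrict Z' h hh with hh'
  set C0' : Submodule (ZMod 2) Z' := C0.comap Z'.subtype with hC0'
  have hfC : finrank (ZMod 2) C0' = finrank (ZMod 2) C0 :=
    (Submodule.comapSubtypeEquivOfLe hle).finrank_eq
  have hq := Submodule.finrank_quotient_add_finrank C0'
  set k : Z →ₗ[ZMod 2] (Z' ⧸ C0') := C0'.mkQ.comp h' with hkdef
  have hkB : LinearMap.ker k ≤ B := by
    intro g hg
    rw [LinearMap.mem_ker, hkdef, LinearMap.comp_apply, Submodule.mkQ_apply,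
      Submodule.Quotient.mk_eq_zero] at hg
    obtain ⟨φ, hφ⟩ := hg
    refine h3 g ⟨φ, fun e => ?_⟩
    rw [← Alg_del_apply, hφ]
    rfl
  have e1 : finrank (ZMod 2) (Z ⧸ LinearMap.ker k) = finrank (ZMod 2) (LinearMap.range k) :=
    (LinearMap.quotKerEquivRange k).finrank_eq
  have e2 : finrank (ZMod 2) (LinearMap.range k) ≤ finrank (ZMod 2) (Z' ⧸ C0') :=
    Submodule.finrank_le _
  have : Module.Finite (ZMod 2) (Z ⧸ LinearMap.ker k) :=
    Module.Finite.equiv (LinearMap.quotKerEquivRange k).symm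
  have e3 : finrank (ZMod 2) (Z ⧸ B) ≤ finrank (ZMod 2) (Z ⧸ LinearMap.ker k) := by
    have h4 := LinearMap.finrank_range_le (Submodule.factor hkB)
    rw [LinearMap.range_eq_top.2 (Submodule.factor_surjective hkB), finrank_top] at h4
    exact h4
  omega

end Pool.Agent.H40.PZ
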