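import Pool.Agent.H61.PO.Faces

/-!
# PZ-09: barycentric coordinates of a simplex

`Bar p`: the barycentric coordinates with respect to the `d + 1` affinely independent points `p i`, `d = finrank E`.

`exists_bar`: `affineSpan ℝ (range p) = ⊤` (`AffineIndependent.affineSpan_eq_top_iff_card_eq_finrank_add_one`), so there is an `AffineBasis` `b` with points `p`; `c i = b.coord i` (an affine map, continuous in finite dimension:
`AffineMap.continuous_of_finiteDimensional`).  `sum`: `AffineBasis.sum_coord_apply_eq_one`; `rep`: `AffineBasis.linear_combination_coord_eq_self`; `self`: `AffineBasis.coord_apply`;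
`aff`: an affine map preserves affine combinations (`a • x + b • y = lineMap x y b`; `AffineMap.apply_lineMap`).
`hull`: (=>) the right hand side is a convex set (by `aff`) which contains the `p j`, `j ∈ s`: `convexHull_min`.  (<=) `x = ∑ i, c i x • p i = ∑ i ∈ s, c i x • p i` with nonnegative coefficients of sum `1`
(`Finset.centerMass_mem_convexHull` or `Convex.sum_mem`).
`span`: (=>) affine combinations of points with `c i = 0` have `c i = 0` (`affineSpan_le` for the affine subspace `{c i = 0}`, e.g. `(⊥ or {0} : AffineSubspace ℝ ℝ).comap (b.coord i)`, or `affineSpan_induction`);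
(<=) `x = ∑ i ∈ s, c i x • p i`, `affineCombination_mem_affineSpan` (in a vector space: `Finset.affineCombination_eq_linear_combination`).
-/

namespace Pool.Agent.H40.PZ

open Set Topology

variable {E : Type*} [NormedAddCommGroup E] [NormedSpace ℝ E]

/-- barycentric coordinates -/
structure Bar {n : ℕ} (p : Fin n → E) where
  c : Fin n → E → ℝ
  cont : ∀ i, Continuous (c i)
  sum : ∀ x, ∑ i, c i x = 1
  rep : ∀ x, ∑ i, c i x • p i = x
  self : ∀ i j, c i (p j) = if i = j then 1 else 0
  aff : ∀ i x y (a b : ℝ), a + b = 1 → c i (a • x + b • y) = a * c i x + b * c i y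
  hull : ∀ (s : Finset (Fin n)) x,
    x ∈ convexHull ℝ (p '' (s : Set (Fin n))) ↔ (∀ i, 0 ≤ c i x) ∧ ∀ i, i ∉ s → c i x = 0
  span : ∀ (s : Finset (Fin n)) x,
    x ∈ affineSpan ℝ (p '' (s : Set (Fin n))) ↔ ∀ i, i ∉ s → c i x = 0

theorem exists_bar [FiniteDimensional ℝ E] {p : Fin (Module.finrank ℝ E + 1) → E}
    (hp : AffineIndependent ℝ p) : Nonempty (Bar p) := by
  classical
  have htop : affineSpan ℝ (range p) = ⊤ := by
    rw [hp.affineSpan_eq_top_iff_card_eq_finrank_add_one]
    simp
  let b : AffineBasis (Fin (Module.finrank ℝ E + 1)) ℝ E := ⟨p, hp, htop⟩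
  have hbp : ∀ i, b i = p i := fun i => rfl
  have hsum : ∀ x, ∑ i, b.coord i x = 1 := fun x => b.sum_coord_apply_eq_one x
  have hrep : ∀ x, ∑ i, b.coord i x • p i = x := fun x => b.linear_combination_coord_eq_self x
  have hself : ∀ i j, b.coord i (p j) = if i = j then 1 else 0 := by
    intro i j
    rw [← hbp, b.coord_apply]
  have haff : ∀ i x y (s t : ℝ), s + t = 1 →
      b.coord i (s • x + t • y) = s * b.coord i x + t * b.coord i y := by
    intro i x y s t hst
    have h1 : s • x + t • y = AffineMap.lineMap x y t := by
      rw [AffineMap.lineMap_apply_module]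
      congr 2
      linarith
    have h2 : s * b.coord i x + t * b.coord i y = AffineMap.lineMap (b.coord i x) (b.coord i y) t := by
      rw [AffineMap.lineMap_apply_module]
      simp only [smul_eq_mul]
      congr 2
      linarith
    rw [h1, h2, AffineMap.apply_lineMap]
  -- restriction of the sums to `s`
  have hrs : ∀ (s : Finset (Fin (Module.finrank ℝ E + 1))) (x : E),
      (∀ i, i ∉ s → b.coord i x = 0) → (∑ i ∈ s, b.coord i x = 1) ∧
        ∑ i ∈ s, b.coord i x • p i = x := by
    intro s x h0
    constructor
    · rw [← hsum x]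
      exact Finset.sum_subset (Finset.subset_univ s) fun i _ hi => h0 i hi
    · have h1 := hrep x
      have h2 : ∑ i ∈ s, b.coord i x • p i = ∑ i, b.coord i x • p i :=
        Finset.sum_subset (Finset.subset_univ s) fun i _ hi => by rw [h0 i hi, zero_smul]
      rw [h2, h1]
  refine ⟨⟨fun i => b.coord i, fun i => (b.coord i).continuous_of_finiteDimensional, hsum, hrep,
    hself, haff, ?_, ?_⟩⟩
  · intro s x
    constructor
    · intro hx
      have hconv : Convex ℝ {x : E | (∀ i, 0 ≤ b.coord i x) ∧ ∀ i, i ∉ s → b.coord i x = 0} := by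
        intro x hx y hy s' t' hs' ht' hst
        refine ⟨fun i => ?_, fun i hi => ?_⟩
        · rw [haff i x y s' t' hst]
          have := hx.1 i
          have := hy.1 i
          positivity
        · rw [haff i x y s' t' hst, hx.2 i hi, hy.2 i hi]
          ring
      refine convexHull_min ?_ hconv hx
      rintro _ ⟨j, hj, rfl⟩
      refine ⟨fun i => ?_, fun i hi => ?_⟩
      · rw [hself]
        split_ifs <;> norm_num
      · rw [hself, if_neg]
        rintro rfl
        exact hi hj
    · rintro ⟨h0, h1⟩
      obtain ⟨h2, h3⟩ := hrs s x h1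
      rw [← h3]
      refine (convex_convexHull ℝ _).sum_mem (fun i _ => h0 i) h2 fun i hi => ?_
      exact subset_convexHull ℝ _ ⟨i, hi, rfl⟩
  · intro s x
    constructor
    · intro hx i hi
      refine affineSpan_induction (p := fun x => b.coord i x = 0) hx ?_ ?_
      · rintro _ ⟨j, hj, rfl⟩
        rw [hself, if_neg]
        rintro rfl
        exact hi hj
      · intro c u v w hu hv hw
        rw [show c • (u -ᵥ v) +ᵥ w = AffineMap.lineMap w (c • (u -ᵥ v) +ᵥ w) (1:ℝ) by simp]
        have h4 : b.coord i (c • (u -ᵥ v) +ᵥ w) = c • (b.coord i u - b.coord i v) + b.coord i w := by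
          rw [AffineMap.map_vadd, LinearMap.map_smul, AffineMap.linearMap_vsub]
          simp
        simp only [AffineMap.lineMap_apply_one]
        rw [h4, hu, hv, hw]
        simp
    · intro h1
      obtain ⟨h2, h3⟩ := hrs s x h1
      have h5 := affineCombination_mem_affineSpan_image (k := ℝ) (s := s) (w := fun i => b.coord i x)
        h2 (s' := (s : Set (Fin (Module.finrank ℝ E + 1)))) (fun i hi hn => absurd hi hn) p
      rw [Finset.affineCombination_eq_linear_combination s p _ h2, h3] at h5
      exact h5

end Pool.Agent.H40.PZ
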