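import Pool.Agent.H61.PO.Coc

/-!
# PZ-02: gluing primitives over a finite closed cover

* `lcob_congr`: immediate.
* `exists_glue`: `s x = r i x` for a chosen `i ∈ J` with `x ∈ Y i` (`0` if there is none).
* `lcob_cover`: let `x ∈ A`.  `U0 ∈ 𝓝 x` from `Coc A g` at `x`.  For `i ∈ J` with `x ∉ Y i` the set `(Y i)ᶜ` is a neighbourhood of `x` (closed), for `i ∈ J` with `x ∈ Y i` there is `U_i` with
  `g a b = s a + s b` on `U_i ∩ Y i`.  `U` = the intersection of `U0` and these finitely many neighbourhoods.  For `a, b ∈ U ∩ A`: `a ∈ Y i`, `b ∈ Y j` with `x ∈ Y i`, `x ∈ Y j`, so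
  `g a b = g a x + g x b = s a + s x + s x + s b = s a + s b` (characteristic 2; `x ∈ U ∩ A`).
-/

namespace Pool.Agent.H40.PZ

open Set Topology Pool.Agent.H61.PO

variable {M : Type*} [TopologicalSpace M]

theorem lcob_congr {A : Set M} {g : M → M → ZMod 2} {s s' : M → ZMod 2} (h : LCob A g s)
    (he : ∀ x ∈ A, s x = s' x) : LCob A g s' := by
  intro x hx
  obtain ⟨U, hU, h1⟩ := h x hx
  exact ⟨U, hU, fun a ha b hb => by rw [h1 a ha b hb, he a ha.2, he b hb.2]⟩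

omit [TopologicalSpace M] in
/-- functions which agree on the intersections -/
theorem exists_glue {I : Type*} (J : Set I) (Y : I → Set M) (r : I → M → ZMod 2)
    (h : ∀ i ∈ J, ∀ j ∈ J, ∀ x, x ∈ Y i → x ∈ Y j → r i x = r j x) :
    ∃ s : M → ZMod 2, ∀ i ∈ J, ∀ x ∈ Y i, s x = r i x := by
  classical
  refine ⟨fun x => if hx : ∃ i, i ∈ J ∧ x ∈ Y i then r hx.choose x else 0, fun i hi x hx => ?_⟩
  have h1 : ∃ i, i ∈ J ∧ x ∈ Y i := ⟨i, hi, hx⟩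
  show (if hx : ∃ i, i ∈ J ∧ x ∈ Y i then r hx.choose x else 0) = r i x
  rw [dif_pos h1]
  exact h _ h1.choose_spec.1 i hi x h1.choose_spec.2 hx

theorem lcob_cover {I : Type*} {J : Set I} (hJ : J.Finite) {Y : I → Set M}
    (hY : ∀ i ∈ J, IsClosed (Y i)) {A : Set M} (hA : A ⊆ ⋃ i ∈ J, Y i) {g : M → M → ZMod 2}
    (hg : Coc A g) {s : M → ZMod 2} (hs : ∀ i ∈ J, LCob (Y i ∩ A) g s) : LCob A g s := by
  intro x hx
  obtain ⟨U0, hU0, h0⟩ := hg x hx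
  have key : ∀ i ∈ J, ∃ U ∈ 𝓝 x, ∀ a ∈ U ∩ A, a ∈ Y i →
      g a x = s a + s x ∧ g x a = s x + s a := by
    intro i hi
    by_cases hxi : x ∈ Y i
    · obtain ⟨U, hU, h1⟩ := hs i hi x ⟨hxi, hx⟩
      refine ⟨U, hU, fun a ha hai => ⟨?_, ?_⟩⟩
      · exact h1 a ⟨ha.1, hai, ha.2⟩ x ⟨mem_of_mem_nhds hU, hxi, hx⟩
      · exact h1 x ⟨mem_of_mem_nhds hU, hxi, hx⟩ a ⟨ha.1, hai, ha.2⟩
    · exact ⟨(Y i)ᶜ, (hY i hi).isOpen_compl.mem_nhds hxi, fun a ha hai => absurd hai ha.1⟩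
  choose! V hV h1 using key
  have hW : (⋂ i ∈ J, V i) ∈ 𝓝 x := (Filter.biInter_mem hJ).2 hV
  refine ⟨U0 ∩ ⋂ i ∈ J, V i, Filter.inter_mem hU0 hW, fun a ha b hb => ?_⟩
  obtain ⟨i, hi, hai⟩ := mem_iUnion₂.1 (hA ha.2)
  obtain ⟨j, hj, hbj⟩ := mem_iUnion₂.1 (hA hb.2)
  have e1 := (h1 i hi a ⟨mem_iInter₂.1 ha.1.2 i hi, ha.2⟩ hai).1
  have e2 := (h1 j hj b ⟨mem_iInter₂.1 hb.1.2 j hj, hb.2⟩ hbj).2
  have e3 := h0 a ⟨ha.1.1, ha.2⟩ x ⟨mem_of_mem_nhds hU0, hx⟩ b ⟨hb.1.1, hb.2⟩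
  rw [← e3, e1, e2]
  have e4 : s x + s x = 0 := CharTwo.add_self_eq_zero _
  calc s a + s x + (s x + s b) = s a + (s x + s x) + s b := by ring
    _ = s a + s b := by rw [e4, add_zero]

end Pool.Agent.H40.PZ
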