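import Pool.Agent.H40.PZ.Tri
import Pool.Agent.H40.PZ.Cov

/-!
# PZ-04: a local cocycle whose holonomy is a coboundary is a coboundary

`cob_of_hol`: choose for every edge `e` the primitive `s_e` of `g` on `C e` with `s_e (pt k) = φ k`, `k ∈ e`.
(1) `exists_glue` for the edges: if `x ∈ C e ∩ C e' = C (e ∩ e')`, `e ≠ e'`, then `e ∩ e'` is empty or `{k}`, `x = pt k`, `s_e x = φ k = s_e' x`.  So there is `s` with `s = s_e` on `C e` for all edges.
(2) for `t ∈ T`: `bd t = ⋃ k ∈ t, C (t.erase k)`; `lcob_cover` (closed sets `C (t.erase k)`, compact; `bd t ⊆ A` by `hE`, `Coc.mono`): `LCob (bd t) g s`.  `hD` gives a primitive `r` of `g` on `C t ∩ A`;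
`bd t ⊆ C t ∩ A` is preconnected: `r + s` is constant `c` on `bd t` (`LCob.const`), put `r_t = r + c` (`LCob.add_const`): `r_t = s` on `bd t`.
(3) `exists_glue` for the triangles and the sets `C t ∩ A`: if `x ∈ C t ∩ C t'`, `t ≠ t'`, then `x ∈ bd t` and `x ∈ bd t'` (`Tri.inter_bd`), so `r_t x = s x = r_t' x`.
(4) `lcob_cover` for the closed sets `C t` (compact), `t ∈ T`, which cover `A` (`cover`).
-/

namespace Pool.Agent.H40.PZ

open Set Topology Metric Pool.Agent.H61.PO

variable {M : Type*} [TopologicalSpace M] [T2Space M] {n : ℕ} (X : Tri M n)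

private theorem cof_two (a b : ZMod 2) : a + (a + b) = b := by
  rw [← add_assoc, CharTwo.add_self_eq_zero, zero_add]

theorem cob_of_hol {A : Set M} (hE : ∀ e : Finset (Fin n), e.card = 2 → X.C e ⊆ A)
    (hD : ∀ t ∈ X.T, ∀ g : M → M → ZMod 2, Coc (X.C t ∩ A) g → Cob (X.bd t) g →
      Cob (X.C t ∩ A) g)
    {g : M → M → ZMod 2} (hg : Coc A g) (φ : Fin n → ZMod 2)
    (hφ : ∀ e : Finset (Fin n), e.card = 2 → ∃ s : M → ZMod 2, LCob (X.C e) g s ∧
      ∀ k ∈ e, s (X.pt k) = φ k) : Cob A g := by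
  have hφ' : ∀ e : Finset (Fin n), ∃ s : M → ZMod 2, e.card = 2 → LCob (X.C e) g s ∧
      ∀ k ∈ e, s (X.pt k) = φ k := by
    intro e
    by_cases he : e.card = 2
    · obtain ⟨s, hs⟩ := hφ e he
      exact ⟨s, fun _ => hs⟩
    · exact ⟨fun _ => 0, fun h => absurd h he⟩
  choose se hse using hφ'
  -- the edges
  obtain ⟨s, hs⟩ := exists_glue {e : Finset (Fin n) | e.card = 2} X.C se (by
    intro e he e' he' x hx hx'
    by_cases hee : e = e'
    · rw [hee]
    have hx2 : x ∈ X.C (e ∩ e') := by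
      rw [← X.inter]
      exact ⟨hx, hx'⟩
    have hc : (e ∩ e').card ≤ 1 := by
      by_contra hcon
      have he2 : e.card = 2 := he
      have he2' : e'.card = 2 := he'
      have h1 : e ∩ e' = e := Finset.eq_of_subset_of_card_le Finset.inter_subset_left (by omega)
      have h2 : e ∩ e' = e' := Finset.eq_of_subset_of_card_le Finset.inter_subset_right (by omega)
      exact hee (h1.symm.trans h2)
    rcases Nat.le_one_iff_eq_zero_or_eq_one.1 hc with h0 | h1
    · rw [Finset.card_eq_zero] at h0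
      rw [h0, X.empty] at hx2
      exact absurd hx2 (notMem_empty x)
    · obtain ⟨k, hk⟩ := Finset.card_eq_one.1 h1
      have hk1 : k ∈ e ∩ e' := by
        rw [hk]
        exact Finset.mem_singleton_self k
      rw [hk, X.single, mem_singleton_iff] at hx2
      rw [hx2, (hse e he).2 k (Finset.mem_inter.1 hk1).1,
        (hse e' he').2 k (Finset.mem_inter.1 hk1).2])
  have hbdA : ∀ t ∈ X.T, X.bd t ⊆ A := by
    intro t ht
    refine iUnion₂_subset fun k hk => hE _ ?_
    rw [Finset.card_erase_of_mem hk, X.card t ht]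
  have hbd : ∀ t ∈ X.T, LCob (X.bd t) g s := by
    intro t ht
    have hc : ∀ k ∈ t, (t.erase k).card = 2 := by
      intro k hk
      rw [Finset.card_erase_of_mem hk, X.card t ht]
    refine lcob_cover (J := {k | k ∈ t}) (Set.toFinite _) (Y := fun k => X.C (t.erase k))
      (fun k hk => (X.edge_compact (hc k hk)).isClosed) (subset_refl _)
      (hg.mono (hbdA t ht)) (fun k hk => ?_)
    exact (lcob_congr (hse _ (hc k hk)).1 fun x hx => (hs _ (hc k hk) x hx).symm).mono
      inter_subset_left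
  -- the triangles
  have htri : ∀ t : Finset (Fin n), ∃ r : M → ZMod 2, t ∈ X.T →
      LCob (X.C t ∩ A) g r ∧ ∀ x ∈ X.bd t, r x = s x := by
    intro t
    by_cases ht : t ∈ X.T
    · obtain ⟨r, hr⟩ := hD t ht g (hg.mono inter_subset_right) ⟨s, hbd t ht⟩
      have hsub : X.bd t ⊆ X.C t ∩ A := subset_inter (X.bd_sub t) (hbdA t ht)
      obtain ⟨c, hc⟩ := (hr.mono hsub).const (hbd t ht) (X.bd_preconn ht)
      refine ⟨fun x => r x + c, fun _ => ⟨hr.add_const c, fun x hx => ?_⟩⟩
      show r x + c = s x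
      rw [← hc x hx, cof_two]
    · exact ⟨fun _ => 0, fun h => absurd h ht⟩
  choose r hr using htri
  obtain ⟨s', hs'⟩ := exists_glue {t : Finset (Fin n) | t ∈ X.T} (fun t => X.C t ∩ A) r (by
    intro t ht t' ht' x hx hx'
    by_cases htt : t = t'
    · rw [htt]
    have hsub : ∀ u v : Finset (Fin n), u ∈ X.T → v ∈ X.T → u ≠ v → ¬ u ⊆ v := by
      intro u v hu hv huv h
      exact huv (Finset.eq_of_subset_of_card_le h (by rw [X.card u hu, X.card v hv]))
    have h1 : x ∈ X.bd t := X.inter_bd (hsub t t' ht ht' htt) ⟨hx.1, hx'.1⟩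
    have h2 : x ∈ X.bd t' := X.inter_bd (hsub t' t ht' ht (Ne.symm htt)) ⟨hx'.1, hx.1⟩
    rw [(hr t ht).2 x h1, (hr t' ht').2 x h2])
  refine ⟨s', lcob_cover (J := {t : Finset (Fin n) | t ∈ X.T}) (Set.toFinite _) (Y := X.C)
    (fun t ht => (X.tri_compact ht).isClosed) (fun x _ => ?_) hg (fun t ht => ?_)⟩
  · obtain ⟨t, ht, hx⟩ := X.cover x
    exact mem_iUnion₂.2 ⟨t, ht, hx⟩
  · exact lcob_congr (hr t ht).1 fun x hx => (hs' t ht x hx).symm

end Pool.Agent.H40.PZ
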