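import Pool.Agent.H40.PZ.Tri
import Pool.Agent.H61.PO.Radial

/-!
# PZ-05: a disc inside a triangle

`disc_exists`: `φ` from `X.disc t ht`.  `u : ℂ → ℂ`, `u z = (√(1 + ‖z‖ ^ 2))⁻¹ • z` (`univUnitBall`, `OpenPartialHomeomorph.univUnitBall`) is a homeomorphism of `ℂ` onto `ball 0 1` which maps `ball 0 1` onto
`ball 0 ρ`, `ρ = 1/√2`.  `e = φ ∘ u`.
(1) `e` is an open embedding: continuous and injective (`u z ∈ ball 0 1 ⊆ closedBall 0 1`).  Open map: `φ` restricted to the compact disc is a homeomorphism onto `C t`; if `O ⊆ ball 0 1` is open then `closedBall 0 1 \ O` is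
compact, `φ '' O = (C t \ bd t) \ φ '' (closedBall 0 1 \ O)` (injectivity; `φ '' ball 0 1 = C t \ bd t`), which is open (`op_isOpen`).
(2) `e '' ball 0 1 = φ '' ball 0 ρ ⊆ φ '' ball 0 1 = C t \ bd t`.
(3) `C t ∩ (e '' ball 0 1)ᶜ = φ '' (closedBall 0 1 \ ball 0 ρ)`.  Let `g` be as in the statement.  `g' = g (φ a) (φ b)` is a local cocycle on `closedBall 0 1 \ ball 0 ρ` (`Coc.pullback`) and a coboundary on `sphere 0 1`
(`Cob.pullback`, `φ '' sphere 0 1 = bd t`); `ann_triv`: `g'` is a coboundary on `closedBall 0 1 \ ball 0 ρ`.  Pull back by the inverse of `φ` on this compact set (continuous on the image, as in the proof of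
`Triv.image`, file PO/Homot.lean): `g` is a coboundary on the image (`Cob.of_eqOn`).
-/

namespace Pool.Agent.H40.PZ

open Set Topology Metric Pool.Agent.H61.PO

variable {M : Type*} [TopologicalSpace M] [T2Space M] {n : ℕ} (X : Tri M n)

private theorem Dis_push {Y Z : Type*} [TopologicalSpace Y] [TopologicalSpace Z] [T2Space Z]
    {K : Set Y} (hK : IsCompact K) {φ : Y → Z} (hφ : ContinuousOn φ K) (hi : InjOn φ K)
    {g : Z → Z → ZMod 2} (h : Cob K (fun a b => g (φ a) (φ b))) : Cob (φ '' K) g := by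
  rcases K.eq_empty_or_nonempty with rfl | ⟨x₀, hx₀⟩
  · rw [image_empty]
    exact ⟨fun _ => 0, fun x hx => absurd hx (Set.notMem_empty x)⟩
  have hne : Nonempty Y := ⟨x₀⟩
  obtain ⟨s, hs⟩ := h
  refine ⟨fun z => s (Function.invFunOn φ K z), ?_⟩
  rintro _ ⟨x, hx, rfl⟩
  obtain ⟨U, hU, h1⟩ := hs x hx
  have hcl : IsClosed (φ '' (K \ interior U)) := by
    have h2 : IsCompact (K \ interior U) := hK.diff isOpen_interior
    exact (h2.image_of_continuousOn (hφ.mono sdiff_subset)).isClosed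
  have hx' : φ x ∈ (φ '' (K \ interior U))ᶜ := by
    rintro ⟨y, hy, hyx⟩
    have h3 : y = x := hi hy.1 hx hyx
    rw [h3] at hy
    exact hy.2 (mem_interior_iff_mem_nhds.2 hU)
  refine ⟨(φ '' (K \ interior U))ᶜ, hcl.isOpen_compl.mem_nhds hx', ?_⟩
  have key : ∀ a, a ∈ (φ '' (K \ interior U))ᶜ ∩ φ '' K →
      Function.invFunOn φ K a ∈ U ∩ K ∧ φ (Function.invFunOn φ K a) = a := by
    rintro a ⟨ha, ha'⟩
    have h4 := Function.invFunOn_mem ha'
    have h5 := Function.invFunOn_eq ha'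
    refine ⟨⟨?_, h4⟩, h5⟩
    by_contra h6
    exact ha ⟨_, ⟨h4, fun h7 => h6 (interior_subset h7)⟩, h5⟩
  intro a ha b hb
  obtain ⟨a1, a2⟩ := key a ha
  obtain ⟨b1, b2⟩ := key b hb
  have h8 : g (φ (Function.invFunOn φ K a)) (φ (Function.invFunOn φ K b)) =
      s (Function.invFunOn φ K a) + s (Function.invFunOn φ K b) := h1 _ a1 _ b1
  rw [a2, b2] at h8
  exact h8

private theorem Dis_u : ∃ u : ℂ → ℂ, IsOpenEmbedding u ∧ range u = ball 0 1 ∧
    ∃ ρ : ℝ, 0 < ρ ∧ ρ < 1 ∧ u '' ball 0 1 = ball 0 ρ := by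
  have hs : (OpenPartialHomeomorph.univUnitBall : OpenPartialHomeomorph ℂ ℂ).source = univ := rfl
  have hr : range (OpenPartialHomeomorph.univUnitBall : OpenPartialHomeomorph ℂ ℂ) = ball 0 1 := by
    have h1 := (OpenPartialHomeomorph.univUnitBall :
      OpenPartialHomeomorph ℂ ℂ).image_source_eq_target
    rw [hs, image_univ] at h1
    exact h1
  have hn : ∀ z : ℂ, ‖(OpenPartialHomeomorph.univUnitBall : OpenPartialHomeomorph ℂ ℂ) z‖ ^ 2 *
      (1 + ‖z‖ ^ 2) = ‖z‖ ^ 2 := by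
    intro z
    have hpos : 0 < 1 + ‖z‖ ^ 2 := by positivity
    rw [OpenPartialHomeomorph.univUnitBall_apply, norm_smul, norm_inv, Real.norm_eq_abs,
      mul_pow, inv_pow, sq_abs, Real.sq_sqrt hpos.le]
    field_simp
  have hiff : ∀ z : ℂ, ‖(OpenPartialHomeomorph.univUnitBall : OpenPartialHomeomorph ℂ ℂ) z‖ <
      Real.sqrt (1 / 2) ↔ ‖z‖ < 1 := by
    intro z
    have h1 := hn z
    rw [Real.lt_sqrt (norm_nonneg _)]
    constructor
    · intro h
      by_contra hc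
      push Not at hc
      have h2 : 1 ≤ ‖z‖ ^ 2 := by nlinarith
      nlinarith
    · intro h
      have h2 : ‖z‖ ^ 2 < 1 := by nlinarith [norm_nonneg z]
      by_contra hc
      push Not at hc
      nlinarith [norm_nonneg z, sq_nonneg ‖z‖]
  have hρ : Real.sqrt (1 / 2) < 1 := by
    rw [Real.sqrt_lt' one_pos]
    norm_num
  refine ⟨(OpenPartialHomeomorph.univUnitBall : OpenPartialHomeomorph ℂ ℂ),
    OpenPartialHomeomorph.isOpenEmbedding _ hs, hr, Real.sqrt (1 / 2), by positivity, hρ, ?_⟩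
  ext y
  rw [mem_ball_zero_iff]
  constructor
  · rintro ⟨z, hz, rfl⟩
    rw [mem_ball_zero_iff] at hz
    exact (hiff z).2 hz
  · intro hy
    have h1 : y ∈ range (OpenPartialHomeomorph.univUnitBall : OpenPartialHomeomorph ℂ ℂ) := by
      rw [hr, mem_ball_zero_iff]
      exact hy.trans hρ
    obtain ⟨z, rfl⟩ := h1
    exact ⟨z, by rw [mem_ball_zero_iff]; exact (hiff z).1 hy, rfl⟩

theorem disc_exists {t : Finset (Fin n)} (ht : t ∈ X.T) :
    ∃ e : ℂ → M, IsOpenEmbedding e ∧ e '' ball 0 1 ⊆ X.C t \ X.bd t ∧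
      ∀ g : M → M → ZMod 2, Coc (X.C t ∩ (e '' ball 0 1)ᶜ) g → Cob (X.bd t) g →
        Cob (X.C t ∩ (e '' ball 0 1)ᶜ) g := by
  obtain ⟨φ, hφc, hφi, hφK, hφS⟩ := X.disc t ht
  have hbd : φ '' sphere 0 1 = X.bd t := hφS
  obtain ⟨u, hu, hur, ρ, hρ0, hρ1, hub⟩ := Dis_u
  have hbK : ball (0 : ℂ) 1 ⊆ closedBall 0 1 := ball_subset_closedBall
  have hbρ : ball (0 : ℂ) ρ ⊆ ball 0 1 := ball_subset_ball hρ1.le
  have hop : φ '' ball 0 1 = X.C t \ X.bd t := by
    rw [← hφK, ← hbd, ← hφi.image_sdiff_subset sphere_subset_closedBall]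
    congr 1
    ext x
    simp only [mem_ball_zero_iff, mem_sdiff, mem_closedBall_zero_iff, mem_sphere_zero_iff_norm]
    constructor
    · intro h
      exact ⟨h.le, h.ne⟩
    · rintro ⟨h1, h2⟩
      exact lt_of_le_of_ne h1 h2
  have hopen : ∀ V : Set ℂ, IsOpen V → V ⊆ ball 0 1 → IsOpen (φ '' V) := by
    intro V hV hVb
    have h1 : φ '' V = (X.C t \ X.bd t) \ φ '' (closedBall 0 1 \ V) := by
      rw [← hop]
      ext y
      constructor
      · rintro ⟨z, hz, rfl⟩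
        refine ⟨⟨z, hVb hz, rfl⟩, ?_⟩
        rintro ⟨w, hw, hwz⟩
        have h2 : w = z := hφi hw.1 (hbK (hVb hz)) hwz
        rw [h2] at hw
        exact hw.2 hz
      · rintro ⟨⟨z, hz, rfl⟩, h2⟩
        by_cases hzV : z ∈ V
        · exact ⟨z, hzV, rfl⟩
        · exact absurd ⟨z, ⟨hbK hz, hzV⟩, rfl⟩ h2
    rw [h1]
    refine (X.op_isOpen ht).sdiff ?_
    exact (((isCompact_closedBall (0 : ℂ) 1).diff hV).image_of_continuousOn
      (hφc.mono sdiff_subset)).isClosed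
  have huK : ∀ z, u z ∈ ball (0 : ℂ) 1 := by
    intro z
    rw [← hur]
    exact mem_range_self z
  have heq : (φ ∘ u) '' ball 0 1 = φ '' ball 0 ρ := by
    rw [image_comp, hub]
  refine ⟨φ ∘ u, ?_, ?_, ?_⟩
  · refine IsOpenEmbedding.of_continuous_injective_isOpenMap ?_ ?_ ?_
    · exact hφc.comp_continuous hu.continuous fun z => hbK (huK z)
    · intro z w h
      exact hu.injective (hφi (hbK (huK z)) (hbK (huK w)) h)
    · intro O hO
      rw [image_comp]
      refine hopen _ (hu.isOpenMap O hO) ?_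
      rintro _ ⟨z, _, rfl⟩
      exact huK z
  · rw [heq, ← hop]
    exact image_mono hbρ
  · have hA : X.C t ∩ ((φ ∘ u) '' ball 0 1)ᶜ = φ '' (closedBall 0 1 \ ball 0 ρ) := by
      rw [heq, hφi.image_sdiff_subset (hbρ.trans hbK), hφK]
      rfl
    rw [hA]
    intro g hg hS
    have hmono : closedBall (0 : ℂ) 1 \ ball 0 ρ ⊆ closedBall 0 1 := sdiff_subset
    refine Dis_push ((isCompact_closedBall (0 : ℂ) 1).diff isOpen_ball) (hφc.mono hmono)
      (hφi.mono hmono) ?_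
    refine ann_triv hρ0 (closedBall_subset_ball hρ1) ?_ ?_
    · exact hg.pullback (hφc.mono hmono) (mapsTo_image _ _)
    · rw [← hbd] at hS
      exact hS.pullback (hφc.mono sphere_subset_closedBall) (mapsTo_image _ _)

end Pool.Agent.H40.PZ
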