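import Pool.Agent.H61.PO.Defs

/-!
# PZ-06: the complement of a finite set in a connected surface is connected

`compl_finite_preconn`: suppose `A, B` are open, `Sᶜ ⊆ A ∪ B`, `Sᶜ ∩ A ∩ B = ∅`, and both meet `Sᶜ` (use `isPreconnected_iff_subset_of_disjoint` or the definition; we may replace `A`, `B` by `A \ S`, `B \ S`, open since `S` is finite and `M`
is Hausdorff, so disjoint).  For every `x ∈ S` take an open embedding `e : ℂ → M`, `e 0 = x`, `range e ∩ S = {x}` (`Surf` for the neighbourhood `(S \ {x})ᶜ` of `x`).  `e '' {0}ᶜ` is preconnected (`{0}ᶜ` in `ℂ`: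
`isConnected_compl_singleton_of_one_lt_rank`, `Complex.rank_real_complex`) and contained in `Sᶜ ⊆ A ∪ B`, so in `A` or in `B`.  Let `A'` be the union of `A` and all `range e` with `e '' {0}ᶜ ⊆ A`, the same for `B'`.  Then `A'`, `B'` are open,
`A' ∪ B' = M`; they are disjoint (a point of `Sᶜ` in `A'` is in `A`; a point `x ∈ S` is in only one: it is in `range e_y` only for `y = x`, and `e_x '' {0}ᶜ` is nonempty, so not contained in both).
`M` is connected: contradiction.  (Alternative: induction on `S` one point at a time is not easier.)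
-/

namespace Pool.Agent.H40.PZ

open Set Topology Metric Pool.Agent.H61.PO

/-- the part of `A` off `S`, together with the points of `S` punctured neighbourhoods of which lie
in `A` -/
private def cfiExt {M : Type*} [TopologicalSpace M] (S A : Set M) : Set M :=
  {x | (x ∈ A ∧ x ∉ S) ∨ (x ∈ S ∧ ∀ᶠ y in 𝓝[≠] x, y ∈ A)}

private theorem cfi_open {M : Type*} [TopologicalSpace M] [T2Space M] {S A : Set M}
    (hS : S.Finite) (hA : IsOpen A) : IsOpen (cfiExt S A) := by
  rw [isOpen_iff_mem_nhds]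
  rintro x (⟨hxA, hxS⟩ | ⟨hxS, hx⟩)
  · have h1 : A ∩ Sᶜ ∈ 𝓝 x := (hA.inter hS.isClosed.isOpen_compl).mem_nhds ⟨hxA, hxS⟩
    filter_upwards [h1] with y hy
    exact Or.inl ⟨hy.1, hy.2⟩
  · have h1 : (S \ {x})ᶜ ∈ 𝓝 x :=
      (hS.subset sdiff_subset).isClosed.isOpen_compl.mem_nhds (fun h => h.2 rfl)
    rw [eventually_nhdsWithin_iff] at hx
    filter_upwards [hx, h1] with y hy hy1
    by_cases hyx : y = x
    · subst hyx
      exact Or.inr ⟨hxS, by
        rw [eventually_nhdsWithin_iff]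
        exact hx⟩
    · exact Or.inl ⟨hy hyx, fun h => hy1 ⟨h, hyx⟩⟩

private theorem cfi_neBot {M : Type*} [TopologicalSpace M] (hM : Surf M) (x : M) :
    (𝓝[≠] x).NeBot := by
  obtain ⟨e, he, he0, -⟩ := hM x univ Filter.univ_mem
  have ht : Filter.Tendsto e (𝓝[≠] 0) (𝓝[≠] x) := by
    rw [tendsto_nhdsWithin_iff]
    refine ⟨?_, ?_⟩
    · have := he.continuous.tendsto 0
      rw [he0] at this
      exact this.mono_left nhdsWithin_le_nhds
    · filter_upwards [self_mem_nhdsWithin] with z hz h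
      apply hz
      apply he.injective
      rw [he0]
      exact h
  exact ht.neBot

theorem compl_finite_preconn {M : Type*} [TopologicalSpace M] [T2Space M] [PreconnectedSpace M]
    (hM : Surf M) {S : Set M} (hS : S.Finite) : IsPreconnected Sᶜ := by
  intro A B hA hB hAB hneA hneB
  by_contra hcon
  rw [not_nonempty_iff_eq_empty] at hcon
  have hdis : ∀ y, y ∉ S → y ∈ A → y ∈ B → False := by
    intro y h1 h2 h3
    have : y ∈ Sᶜ ∩ (A ∩ B) := ⟨h1, h2, h3⟩
    rw [hcon] at this
    exact this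
  have hcov : (univ : Set M) ⊆ cfiExt S A ∪ cfiExt S B := by
    intro x _
    by_cases hxS : x ∈ S
    · obtain ⟨e, he, he0, her⟩ := hM x (S \ {x})ᶜ
        ((hS.subset sdiff_subset).isClosed.isOpen_compl.mem_nhds (fun h => h.2 rfl))
      have hpre : IsPreconnected (e '' {0}ᶜ) := by
        have h1 : IsConnected ({0}ᶜ : Set ℂ) :=
          isConnected_compl_singleton_of_one_lt_rank (by rw [Complex.rank_real_complex]; norm_num) 0
        exact h1.isPreconnected.image e he.continuous.continuousOn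
      have hsubS : e '' {0}ᶜ ⊆ Sᶜ := by
        rintro _ ⟨z, hz, rfl⟩ h
        refine her (mem_range_self z) ⟨h, fun h2 => hz ?_⟩
        apply he.injective
        rw [he0]
        exact h2
      have hnhd : range e ∈ 𝓝 x := he.isOpen_range.mem_nhds (he0 ▸ mem_range_self 0)
      have hev : ∀ {C : Set M}, e '' {0}ᶜ ⊆ C → ∀ᶠ y in 𝓝[≠] x, y ∈ C := by
        intro C hC
        rw [eventually_nhdsWithin_iff]
        filter_upwards [hnhd] with y hy hyx
        obtain ⟨z, rfl⟩ := hy
        refine hC ⟨z, fun hz => hyx ?_, rfl⟩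
        rw [mem_singleton_iff] at hz
        rw [hz, he0]
        rfl
      rcases (isPreconnected_iff_subset_of_disjoint.1 hpre) A B hA hB (hsubS.trans hAB) (by
        rw [← subset_empty_iff, ← hcon]
        exact inter_subset_inter_left _ hsubS) with h | h
      · exact Or.inl (Or.inr ⟨hxS, hev h⟩)
      · exact Or.inr (Or.inr ⟨hxS, hev h⟩)
    · rcases hAB hxS with h | h
      · exact Or.inl (Or.inl ⟨h, hxS⟩)
      · exact Or.inr (Or.inl ⟨h, hxS⟩)
  obtain ⟨x, -, hxA, hxB⟩ := isPreconnected_univ (cfiExt S A) (cfiExt S B) (cfi_open hS hA)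
    (cfi_open hS hB) hcov
    (by obtain ⟨x, h1, h2⟩ := hneA; exact ⟨x, mem_univ x, Or.inl ⟨h2, h1⟩⟩)
    (by obtain ⟨x, h1, h2⟩ := hneB; exact ⟨x, mem_univ x, Or.inl ⟨h2, h1⟩⟩)
  rcases hxA with ⟨hA1, hA2⟩ | ⟨hA1, hA2⟩
  · rcases hxB with ⟨hB1, hB2⟩ | ⟨hB1, hB2⟩
    · exact hdis x hA2 hA1 hB1
    · exact hA2 hB1
  · rcases hxB with ⟨hB1, hB2⟩ | ⟨hB1, hB2⟩
    · exact hB2 hA1
    · have := cfi_neBot hM x
      have h1 : (S \ {x})ᶜ ∈ 𝓝[≠] x := nhdsWithin_le_nhds
        ((hS.subset sdiff_subset).isClosed.isOpen_compl.mem_nhds (fun h => h.2 rfl))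
      obtain ⟨y, hy1, hy2, hy3, hy4⟩ :=
        (hA2.and (hB2.and (Filter.eventually_and.2 ⟨h1, self_mem_nhdsWithin⟩))).exists
      exact hdis y (fun h => hy3 ⟨h, hy4⟩) hy1 hy2

end Pool.Agent.H40.PZ
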