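import Pool.Agent.H40.PZ.Tri
import Pool.Agent.H40.PZ.Cfi

/-!
# PZ-07: a set of triangles which contains every edge an even number of times is empty (or everything)

`parity`: `A = ⋃ t ∈ J, C t`, `B = ⋃ t ∈ T \ J, C t`: closed, `A ∪ B = M` (`cover`).  `V = range pt` is finite.
(1) `A ∩ B ⊆ V`: let `x ∈ C t ∩ C t' = C (t ∩ t')`, `t ∈ J`, `t' ∈ T`, `t' ∉ J`.  `t ≠ t'`, both of cardinality 3, so `card (t ∩ t') ≤ 2`.  If it is `2`: `e = t ∩ t'`: the set `T.filter (e ⊆ ·)` has cardinality 2 and contains `t`, `t'`,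
so is `{t, t'}`; `J.filter (e ⊆ ·) = {t}` has cardinality 1, odd: contradiction.  So `t ∩ t'` is empty (`x ∈ ∅`) or `{k}`, `x = pt k`.
(2) `Vᶜ` is preconnected (`compl_finite_preconn`), covered by the closed sets `A`, `B`, which do not meet in `Vᶜ`: `Vᶜ ⊆ A` or `Vᶜ ⊆ B` (`isPreconnected_iff_subset_of_disjoint_closed` or
`isPreconnected_closed_iff`).  `C t₁ ⊆ B` is infinite (`tri_infinite`) so it has a point outside `V`, which is in `B`, not in `A` (by (1)): so `Vᶜ ⊆ B`.
If `t ∈ J` then `C t ⊆ A` has a point outside `V`, in `A ∩ B`: contradiction.  So `J = ∅`.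
-/

namespace Pool.Agent.H40.PZ

open Set Topology Metric Pool.Agent.H61.PO

variable {M : Type*} [TopologicalSpace M] [T2Space M] [PreconnectedSpace M] {n : ℕ} (X : Tri M n)

theorem parity (hM : Surf M) {t₁ : Finset (Fin n)} (ht₁ : t₁ ∈ X.T)
    {J : Finset (Finset (Fin n))} (hJ : J ⊆ X.T.erase t₁)
    (h : ∀ e : Finset (Fin n), e.card = 2 → Even (J.filter (fun t => e ⊆ t)).card) : J = ∅ := by
  have hJT : ∀ t ∈ J, t ∈ X.T := fun t ht => Finset.mem_of_mem_erase (hJ ht)
  have ht1 : t₁ ∉ J := fun hm => Finset.ne_of_mem_erase (hJ hm) rfl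
  have key : ∀ t ∈ J, ∀ t' ∈ X.T, t' ∉ J → ∀ x, x ∈ X.C t → x ∈ X.C t' → x ∈ range X.pt := by
    intro t ht t' ht' hn x hx hx'
    have hxi : x ∈ X.C (t ∩ t') := by
      rw [← X.inter]
      exact ⟨hx, hx'⟩
    have hne : t ≠ t' := by
      rintro rfl
      exact hn ht
    have c3 := X.card t (hJT t ht)
    have c3' := X.card t' ht'
    have hc : (t ∩ t').card < 3 := by
      by_contra hcon
      have e1 : t ∩ t' = t := Finset.eq_of_subset_of_card_le Finset.inter_subset_left (by omega)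
      have e2 : t ∩ t' = t' := Finset.eq_of_subset_of_card_le Finset.inter_subset_right (by omega)
      exact hne (e1.symm.trans e2)
    rcases Nat.lt_or_ge (t ∩ t').card 1 with h0 | h0
    · have h0' : t ∩ t' = ∅ := Finset.card_eq_zero.1 (by omega)
      rw [h0', X.empty] at hxi
      exact hxi.elim
    rcases Nat.lt_or_ge (t ∩ t').card 2 with h1 | h1
    · obtain ⟨k, hk⟩ := Finset.card_eq_one.1 (show (t ∩ t').card = 1 by omega)
      rw [hk, X.single] at hxi
      exact ⟨k, (Set.mem_singleton_iff.1 hxi).symm⟩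
    · exfalso
      have h2 : (t ∩ t').card = 2 := by omega
      have hT := X.two (t ∩ t') h2
      have hsub : ({t, t'} : Finset (Finset (Fin n))) ⊆ X.T.filter (fun s => t ∩ t' ⊆ s) := by
        intro s hs
        simp only [Finset.mem_insert, Finset.mem_singleton] at hs
        simp only [Finset.mem_filter]
        rcases hs with rfl | rfl
        · exact ⟨hJT _ ht, Finset.inter_subset_left⟩
        · exact ⟨ht', Finset.inter_subset_right⟩
      have hpair : ({t, t'} : Finset (Finset (Fin n))).card = 2 := Finset.card_pair hne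
      have heq := Finset.eq_of_subset_of_card_le hsub (by omega)
      have hJf : J.filter (fun s => t ∩ t' ⊆ s) = {t} := by
        ext s
        simp only [Finset.mem_filter, Finset.mem_singleton]
        constructor
        · rintro ⟨hs1, hs2⟩
          have hs3 : s ∈ X.T.filter (fun s => t ∩ t' ⊆ s) := by
            simp only [Finset.mem_filter]
            exact ⟨hJT s hs1, hs2⟩
          rw [← heq] at hs3
          simp only [Finset.mem_insert, Finset.mem_singleton] at hs3
          rcases hs3 with hs3 | hs3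
          · exact hs3
          · rw [hs3] at hs1
            exact absurd hs1 hn
        · rintro rfl
          exact ⟨ht, Finset.inter_subset_left⟩
      have hev := h (t ∩ t') h2
      rw [hJf, Finset.card_singleton] at hev
      exact absurd hev (by decide)
  by_contra hne
  obtain ⟨t, ht⟩ := Finset.nonempty_iff_ne_empty.2 hne
  have hV : (range X.pt).Finite := Set.finite_range _
  have hpc := compl_finite_preconn hM hV
  rw [isPreconnected_closed_iff] at hpc
  have hA : IsClosed (⋃ s ∈ J, X.C s) :=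
    isClosed_biUnion_finset fun s hs => (X.tri_compact (hJT s hs)).isClosed
  have hB : IsClosed (⋃ s ∈ X.T \ J, X.C s) :=
    isClosed_biUnion_finset fun s hs => (X.tri_compact (Finset.mem_sdiff.1 hs).1).isClosed
  have hcov : (range X.pt)ᶜ ⊆ (⋃ s ∈ J, X.C s) ∪ (⋃ s ∈ X.T \ J, X.C s) := by
    intro x _
    obtain ⟨s, hs, hx⟩ := X.cover x
    by_cases hsJ : s ∈ J
    · exact Or.inl (Set.mem_biUnion hsJ hx)
    · exact Or.inr (Set.mem_biUnion (Finset.mem_sdiff.2 ⟨hs, hsJ⟩) hx)
  have hneA : ((range X.pt)ᶜ ∩ (⋃ s ∈ J, X.C s)).Nonempty := by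
    obtain ⟨x, hx1, hx2⟩ := ((X.tri_infinite (hJT t ht)).sdiff hV).nonempty
    exact ⟨x, hx2, Set.mem_biUnion ht hx1⟩
  have hneB : ((range X.pt)ᶜ ∩ (⋃ s ∈ X.T \ J, X.C s)).Nonempty := by
    obtain ⟨x, hx1, hx2⟩ := ((X.tri_infinite ht₁).sdiff hV).nonempty
    exact ⟨x, hx2, Set.mem_biUnion (Finset.mem_sdiff.2 ⟨ht₁, ht1⟩) hx1⟩
  obtain ⟨x, hx1, hx2, hx3⟩ := hpc _ _ hA hB hcov hneA hneB
  obtain ⟨s, hs, hxs⟩ := Set.mem_iUnion₂.1 hx2
  obtain ⟨s', hs', hxs'⟩ := Set.mem_iUnion₂.1 hx3
  exact hx1 (key s hs s' (Finset.mem_sdiff.1 hs').1 (Finset.mem_sdiff.1 hs').2 x hxs hxs')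

end Pool.Agent.H40.PZ
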