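import Pool.Agent.H40.PZ.Hol
import Pool.Agent.H40.PZ.Cof
import Pool.Agent.H40.PZ.Dis
import Pool.Agent.H40.PZ.Par
import Pool.Agent.H40.PZ.Alg

/-!
# the bound for `h1` of a triangulated surface minus a disc (helper40)
-/

namespace Pool.Agent.H40.PZ

open Set Topology Metric Pool.Agent.H61.PO

variable {M : Type*} [TopologicalSpace M] [T2Space M] [ConnectedSpace M] {n : ℕ} (X : Tri M n)

theorem h1_le (hM : Surf M) : ∃ e : ℂ → M, IsOpenEmbedding e ∧
    h1 ((e '' ball 0 1)ᶜ) + n + X.T.card ≤ n.choose 2 + 2 := by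
  obtain ⟨x0⟩ : Nonempty M := inferInstance
  obtain ⟨t₁, ht₁, -⟩ := X.cover x0
  have hn : 0 < n := by
    have h1 := X.card t₁ ht₁
    have h2 : t₁.card ≤ n := by simpa using Finset.card_le_univ t₁
    omega
  obtain ⟨e, he, heU, hann⟩ := disc_exists X ht₁
  refine ⟨e, he, ?_⟩
  set A : Set M := (e '' ball 0 1)ᶜ with hAdef
  have hE : ∀ e' : Finset (Fin n), e'.card = 2 → X.C e' ⊆ A := by
    intro e' he' x hx hxe
    have h1 := heU hxe
    exact h1.2 (X.edge_inter_bd ht₁ he' ⟨hx, h1.1⟩)
  have hTA : ∀ t ∈ X.T, t ≠ t₁ → X.C t ⊆ A := by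
    intro t ht hne x hx hxe
    have h1 := heU hxe
    refine h1.2 (X.inter_bd ?_ ⟨h1.1, hx⟩)
    intro hsub
    exact hne (Finset.eq_of_subset_of_card_le hsub (by rw [X.card t ht, X.card t₁ ht₁])).symm
  obtain ⟨h, hh⟩ := hol_exists X hE
  have key := dim_count hn (X.T.erase t₁) (fun t ht => X.card t (Finset.mem_of_mem_erase ht))
    (fun J hJ hev => parity X hM ht₁ hJ hev) ((Bc A).comap (Zc A).subtype) h
    (fun g t ht => hol_tri X hh (Finset.mem_of_mem_erase ht)
      (hTA t (Finset.mem_of_mem_erase ht) (Finset.ne_of_mem_erase ht)) g)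
    (fun g hg => by
      obtain ⟨φ, hφ⟩ := hg
      show Cob A g.1
      refine cob_of_hol X hE ?_ g.2 φ ?_
      · intro t ht g' hg' hb
        by_cases h1 : t = t₁
        · subst h1
          exact hann g' hg' hb
        · have h2 : X.C t ∩ A = X.C t := inter_eq_left.2 (hTA t ht h1)
          rw [h2] at hg' ⊢
          exact X.tri_triv ht g' hg'
      · intro e' he'
        have hg1 : Coc A g.1 := g.2
        obtain ⟨s, hs⟩ := X.edge_triv he' g.1 (hg1.mono (hE e' he'))
        have h1 := hh g ⟨e', he'⟩ s hs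
        rw [hφ ⟨e', he'⟩] at h1
        obtain ⟨i, j, hij, rfl⟩ := Finset.card_eq_two.1 he'
        rw [Finset.sum_pair hij, Finset.sum_pair hij] at h1
        refine ⟨fun x => s x + (s (X.pt i) + φ i), hs.add_const _, ?_⟩
        have h2 : ∀ a b c d : ZMod 2, a + b = c + d → a + c = b + d := by decide
        have h3 : ∀ a b : ZMod 2, a + (a + b) = b := by decide
        intro k hk
        rw [Finset.mem_insert, Finset.mem_singleton] at hk
        rcases hk with rfl | rfl
        · exact h3 _ _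
        · have h4 := h2 _ _ _ _ h1
          have h5 : s (X.pt i) + φ i = s (X.pt k) + φ k := by
            rw [add_comm (s (X.pt i)), add_comm (s (X.pt k))]
            exact h4
          rw [h5]
          exact h3 _ _)
  have hcard : (X.T.erase t₁).card + 1 = X.T.card := Finset.card_erase_add_one ht₁
  have hfin : h1 A = Module.finrank (ZMod 2) (Zc A ⧸ (Bc A).comap (Zc A).subtype) := rfl
  rw [hfin]
  omega

end Pool.Agent.H40.PZ
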