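import Pool.Agent.H40.PZ.Ins

/-!
# the converse (part ZZ of note 1414, helper40)
-/

namespace Pool.Agent.H40.PZ

open Set Topology Metric Pool.Agent.H61.PO

variable {M : Type*} [MetricSpace M] [CompactSpace M] [ConnectedSpace M]
  {E : Type*} [NormedAddCommGroup E] [NormedSpace ℝ E] [FiniteDimensional ℝ E] {f : M → E}

theorem converse (hM : Surf M) (hf : Tight f) (hfull : affineSpan ℝ (range f) = ⊤)
    (hd : 2 ≤ Module.finrank ℝ E) (hs : IsSub f) :
    ∃ e : ℂ → M, IsOpenEmbedding e ∧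
      3 * h1 ((e '' ball 0 1)ᶜ) ≤ (Module.finrank ℝ E - 2).choose 2 := by
  obtain ⟨D⟩ := exists_dat hs
  obtain ⟨X⟩ := exists_tri D hM hf hfull
  obtain ⟨e, he, hb⟩ := h1_le X hM
  refine ⟨e, he, ?_⟩
  have hc := card_count X
  generalize X.T.card = F at hc hb
  obtain ⟨m, hm⟩ : ∃ m, Module.finrank ℝ E = m + 2 := ⟨_, (Nat.sub_add_cancel hd).symm⟩
  rw [hm] at hc hb ⊢
  have h1 : (m + 2 + 1).choose 2 = m.choose 2 + 3 * m + 3 := by
    have e1 : (m + 2 + 1).choose 2 = (m + 2).choose 1 + (m + 2).choose 2 := rfl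
    have e2 : (m + 1 + 1).choose 2 = (m + 1).choose 1 + (m + 1).choose 2 := rfl
    have e3 : (m + 1).choose 2 = m.choose 1 + m.choose 2 := rfl
    rw [Nat.choose_one_right] at e1 e2 e3
    have e4 : (m + 1 + 1).choose 2 = (m + 2).choose 2 := rfl
    omega
  rw [h1] at hc hb
  have h2 : m + 2 - 2 = m := by omega
  rw [h2]
  omega

end Pool.Agent.H40.PZ
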