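import Pool.Agent.H40.PC.Rad

/-!
# PZ-11: a body of dimension two is a closed disc

`disc_body`: `c ∈ ri F` (`ri_nonempty`), `g` from `exists_gauge` (file H40/PC/Rad.lean), `A : ℂ ≃L[ℝ] vectorSpan ℝ F` (as in H40/PC/Scc.lean), `φ z = c + (‖z‖ / g (A z)) • A z` for `z ≠ 0`, `φ 0 = c` (the same formula, as `A 0 = 0`).
Continuous for `z ≠ 0` (`g (A z) > 0`); at `0`: `φ z - c = ‖z‖ • w` with `w = (g (A z))⁻¹ • A z`, `c + w ∈ F`, so `‖w‖` is bounded (`F` compact) and `φ z → c`.
`g` of `φ z - c` is `‖z‖` (positive homogeneity), so `φ z ∈ F` iff `‖z‖ ≤ 1`, `φ z ∈ rb F` iff `‖z‖ = 1`.  Injective: `φ z = φ z'` gives `‖z‖ = ‖z'‖` and, if not `0`, `z = τ z'` with `τ > 0`, so `z = z'`.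
Onto: for `y ∈ F`, `v = y - c ∈ vectorSpan ℝ F`, `v ≠ 0`: `z = (g v / ‖A⁻¹ v‖) • A⁻¹ v`: `‖z‖ = g v ≤ 1`, `g (A z) = g v * g v / ‖A⁻¹ v‖`, `φ z = c + v`.
-/

namespace Pool.Agent.H40.PZ

open Set Topology Metric Pool.Agent.H61.PO Pool.Agent.H40.PC

variable {E : Type*} [NormedAddCommGroup E] [NormedSpace ℝ E] [FiniteDimensional ℝ E]
  {F : Set E}

theorem disc_body (hF : Body F) (hd : dimc F = 2) :
    ∃ φ : ℂ → E, ContinuousOn φ (closedBall 0 1) ∧ InjOn φ (closedBall 0 1) ∧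
      φ '' closedBall 0 1 = F ∧ φ '' sphere 0 1 = rb F := by
  obtain ⟨c, hc⟩ := ri_nonempty hF.1 hF.2.2
  have hcF : c ∈ F := intrinsicInterior_subset hc
  obtain ⟨g, g1, g2, g3, g4, g5, -, g7⟩ := exists_gauge hF hc
  have hfin : Module.finrank ℝ ℂ = Module.finrank ℝ (vectorSpan ℝ F) := by
    rw [Complex.finrank_real_complex]
    exact hd.symm
  let A : ℂ ≃L[ℝ] vectorSpan ℝ F := ContinuousLinearEquiv.ofFinrankEq hfin
  let w : ℂ → vectorSpan ℝ F := fun z => (g (A z))⁻¹ • A z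
  let ψ : ℂ → vectorSpan ℝ F := fun z => ‖z‖ • w z
  have g0 : g 0 = 0 := by
    have h := g4 0 0 le_rfl
    rwa [zero_smul, zero_mul] at h
  have hA0 : ∀ z : ℂ, z ≠ 0 → A z ≠ 0 := fun z hz h => hz (A.injective (h.trans (map_zero A).symm))
  have hpos : ∀ z : ℂ, z ≠ 0 → 0 < g (A z) := fun z hz => g3 _ (hA0 z hz)
  have hw1 : ∀ z : ℂ, g (w z) ≤ 1 := by
    intro z
    by_cases hz : z = 0
    · simp only [w, hz, map_zero, smul_zero, g0]
      exact zero_le_one
    · simp only [w]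
      rw [g4 _ _ (inv_nonneg.2 (hpos z hz).le), inv_mul_cancel₀ (hpos z hz).ne']
  have hψ0 : ψ 0 = 0 := by simp only [ψ, norm_zero, zero_smul]
  have hgψ : ∀ z : ℂ, g (ψ z) = ‖z‖ := by
    intro z
    by_cases hz : z = 0
    · rw [hz, hψ0, g0, norm_zero]
    · simp only [ψ, w]
      rw [g4 _ _ (norm_nonneg z), g4 _ _ (inv_nonneg.2 (hpos z hz).le),
        inv_mul_cancel₀ (hpos z hz).ne', mul_one]
  -- a bound for `w`
  obtain ⟨R, hR⟩ := hF.2.1.isBounded.exists_norm_le
  have hwb : ∀ z : ℂ, ‖w z‖ ≤ R + ‖c‖ := by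
    intro z
    have h1 : ‖c + (w z : E)‖ ≤ R := hR _ ((g5 (w z)).2 (hw1 z))
    have h2 : (w z : E) = (c + (w z : E)) - c := by abel
    have h3 : ‖(w z : E)‖ ≤ ‖c + (w z : E)‖ + ‖c‖ := by
      conv_lhs => rw [h2]
      exact norm_sub_le _ _
    calc ‖w z‖ = ‖(w z : E)‖ := rfl
      _ ≤ R + ‖c‖ := by linarith
  have hψb : ∀ z : ℂ, ‖ψ z‖ ≤ ‖z‖ * (R + ‖c‖) := by
    intro z
    simp only [ψ]
    rw [norm_smul, norm_norm]
    exact mul_le_mul_of_nonneg_left (hwb z) (norm_nonneg z)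
  have hψc : Continuous ψ := by
    rw [continuous_iff_continuousAt]
    intro z
    by_cases hz : z = 0
    · subst hz
      unfold ContinuousAt
      rw [hψ0]
      refine squeeze_zero_norm hψb ?_
      have h1 : Continuous fun z : ℂ => ‖z‖ * (R + ‖c‖) := continuous_norm.mul continuous_const
      have h2 := h1.tendsto 0
      simpa using h2
    · have h1 : ContinuousAt (fun z => g (A z)) z := (g1.comp A.continuous).continuousAt
      have h2 : ContinuousAt (fun z => (g (A z))⁻¹) z := h1.inv₀ (hpos z hz).ne'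
      have h3 : ContinuousAt (fun z => (g (A z))⁻¹ • A z) z := h2.smul A.continuous.continuousAt
      exact continuous_norm.continuousAt.smul h3
  have hsurj : ∀ v : vectorSpan ℝ F, ∃ z : ℂ, ‖z‖ = g v ∧ ψ z = v := by
    intro v
    by_cases hv : v = 0
    · exact ⟨0, by rw [hv, g0, norm_zero], by rw [hv, hψ0]⟩
    · set u : ℂ := A.symm v with hu
      have hAu : A u = v := A.apply_symm_apply v
      have hu0 : u ≠ 0 := by
        intro h
        apply hv
        rw [← hAu, h, map_zero]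
      have hnu : 0 < ‖u‖ := norm_pos_iff.2 hu0
      have hgv : 0 < g v := g3 v hv
      have ht : 0 < g v / ‖u‖ := div_pos hgv hnu
      have hnz : ‖(g v / ‖u‖) • u‖ = g v := by
        rw [norm_smul, Real.norm_eq_abs, abs_of_pos ht, div_mul_cancel₀ _ hnu.ne']
      refine ⟨(g v / ‖u‖) • u, hnz, ?_⟩
      simp only [ψ, w]
      rw [hnz, map_smul, hAu, g4 _ _ ht.le, smul_smul, smul_smul]
      have h1 : g v * (g v / ‖u‖ * g v)⁻¹ * (g v / ‖u‖) = 1 := by
        field_simp
      rw [h1, one_smul]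
  have hinj : Function.Injective ψ := by
    intro z z' h
    have h1 : ‖z‖ = ‖z'‖ := by rw [← hgψ z, ← hgψ z', h]
    by_cases hz : z = 0
    · rw [hz, norm_zero] at h1
      rw [hz]
      exact (norm_eq_zero.1 h1.symm).symm
    · have hz' : z' ≠ 0 := by
        intro h2
        rw [h2, norm_zero] at h1
        exact hz (norm_eq_zero.1 h1)
      simp only [ψ, w] at h
      rw [h1] at h
      have h2 := smul_right_injective (vectorSpan ℝ F) (norm_pos_iff.2 hz').ne' h
      have h3 : A ((g (A z))⁻¹ • z) = A ((g (A z'))⁻¹ • z') := by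
        rw [map_smul, map_smul]
        exact h2
      have h4 := A.injective h3
      have h5 := congrArg norm h4
      rw [norm_smul, norm_smul, h1, Real.norm_eq_abs, Real.norm_eq_abs,
        abs_of_pos (inv_pos.2 (hpos z hz)), abs_of_pos (inv_pos.2 (hpos z' hz'))] at h5
      have h6 := mul_right_cancel₀ (norm_pos_iff.2 hz').ne' h5
      rw [h6] at h4
      exact smul_right_injective ℂ (inv_pos.2 (hpos z' hz')).ne' h4
  refine ⟨fun z => c + (ψ z : E), ?_, ?_, ?_, ?_⟩
  · exact (continuous_const.add (continuous_subtype_val.comp hψc)).continuousOn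
  · intro z _ z' _ h
    exact hinj (Subtype.ext (add_left_cancel h))
  · ext y
    constructor
    · rintro ⟨z, hz, rfl⟩
      refine (g5 _).2 ?_
      rw [hgψ]
      exact mem_closedBall_zero_iff.1 hz
    · intro hy
      have hv : y - c ∈ vectorSpan ℝ F := vsub_mem_vectorSpan ℝ hy hcF
      obtain ⟨z, hz1, hz2⟩ := hsurj ⟨y - c, hv⟩
      have hcv : c + (ψ z : E) = y := by
        rw [hz2]
        show c + (y - c) = y
        abel
      refine ⟨z, ?_, hcv⟩
      rw [mem_closedBall_zero_iff, hz1]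
      refine (g5 _).1 ?_
      show c + (y - c) ∈ F
      rwa [add_sub_cancel]
  · ext y
    constructor
    · rintro ⟨z, hz, rfl⟩
      refine (g7 _).2 ?_
      rw [hgψ]
      exact mem_sphere_zero_iff_norm.1 hz
    · intro hy
      have hyF : y ∈ F := by
        rw [rb_eq hF.2.1.isClosed] at hy
        exact hy.1
      have hv : y - c ∈ vectorSpan ℝ F := vsub_mem_vectorSpan ℝ hyF hcF
      obtain ⟨z, hz1, hz2⟩ := hsurj ⟨y - c, hv⟩
      have hcv : c + (ψ z : E) = y := by
        rw [hz2]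
        show c + (y - c) = y
        abel
      refine ⟨z, ?_, hcv⟩
      rw [mem_sphere_zero_iff_norm, hz1]
      refine (g7 _).1 ?_
      show c + (y - c) ∈ rb F
      rwa [add_sub_cancel]

end Pool.Agent.H40.PZ
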