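import Pool.Agent.H40.PZ.Tri

/-!
# PZ-03: the holonomy of a local cocycle along the edges

`hol_exists`: for `g ∈ Zc A` and an edge `e` (`C e ⊆ A`) choose a primitive `s` of `g` on `C e` (`edge_triv`, `Coc.mono`) and put `h g e = ∑ k ∈ e, s (pt k)`.  If `s'` is another primitive on `C e` then
`s + s'` is constant `= c` on the preconnected set `C e` (`LCob.const`), which contains the two points `pt k`, `k ∈ e` (`pt_mem`), so the two sums differ by `2 c = 0`.  Linear: if `s, s'` are primitives of `g, g'` then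
`s + s'` is a primitive of `g + g'` (`LCob.add`); for `r • g`, `r = 0` or `1`: for `r = 0` use the primitive `0` (or `fin_cases r`).

`hol_tri`: `t = {i, j, k}`, `C t ⊆ A`; a primitive `s` of `g` on `C t` (`tri_triv`) is a primitive on the `C e`, `e ⊆ t` (`C_mono`); the sum of `h g e = ∑ k ∈ e, s (pt k)` over the three
two-element subsets of `t` contains every `s (pt k)`, `k ∈ t`, twice.
-/

namespace Pool.Agent.H40.PZ

open Set Topology Metric Pool.Agent.H61.PO

variable {M : Type*} [TopologicalSpace M] [T2Space M] {n : ℕ} (X : Tri M n)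

/-- `h` is the holonomy map -/
def IsHol (A : Set M) (h : Zc A →ₗ[ZMod 2] (Ed n → ZMod 2)) : Prop :=
  ∀ (g : Zc A) (e : Ed n) (s : M → ZMod 2), LCob (X.C e.1) g.1 s →
    h g e = ∑ k ∈ e.1, s (X.pt k)

omit [T2Space M] in
private theorem hol_key (e : Ed n) {g : M → M → ZMod 2} {s s' : M → ZMod 2}
    (h : LCob (X.C e.1) g s) (h' : LCob (X.C e.1) g s') :
    ∑ k ∈ e.1, s (X.pt k) = ∑ k ∈ e.1, s' (X.pt k) := by
  obtain ⟨c, hc⟩ := h.const h' (X.edge_preconn e.2)
  have h1 : ∑ k ∈ e.1, (s (X.pt k) + s' (X.pt k)) = ∑ _k ∈ e.1, c :=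
    Finset.sum_congr rfl fun k hk => hc _ (X.pt_mem hk)
  have h2 : (2 : ZMod 2) = 0 := by decide
  rw [Finset.sum_const, e.2, nsmul_eq_mul, Finset.sum_add_distrib] at h1
  have h3 : ((2 : ℕ) : ZMod 2) * c = 0 := by
    have : ((2 : ℕ) : ZMod 2) = 0 := by decide
    rw [this, zero_mul]
  rw [h3] at h1
  linear_combination h1 - (∑ k ∈ e.1, s' (X.pt k)) * h2

omit [T2Space M] in
private theorem hol_smul {A : Set M} {g : M → M → ZMod 2} {s : M → ZMod 2} (r : ZMod 2)
    (h : LCob A g s) : LCob A (r • g) (r • s) := by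
  intro x hx
  obtain ⟨U, hU, h1⟩ := h x hx
  refine ⟨U, hU, fun a ha b hb => ?_⟩
  show r * g a b = r * s a + r * s b
  rw [h1 a ha b hb]
  ring

theorem hol_exists {A : Set M} (hA : ∀ e : Finset (Fin n), e.card = 2 → X.C e ⊆ A) :
    ∃ h : Zc A →ₗ[ZMod 2] (Ed n → ZMod 2), IsHol X A h := by
  have hprim : ∀ (g : Zc A) (e : Ed n), ∃ s, LCob (X.C e.1) g.1 s := fun g e =>
    X.edge_triv e.2 g.1 (Coc.mono g.2 (hA e.1 e.2))
  choose P hP using hprim
  refine ⟨{ toFun := fun g e => ∑ k ∈ e.1, P g e (X.pt k), map_add' := ?_, map_smul' := ?_ }, ?_⟩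
  · intro g g'
    funext e
    show ∑ k ∈ e.1, P (g + g') e (X.pt k) =
      ∑ k ∈ e.1, P g e (X.pt k) + ∑ k ∈ e.1, P g' e (X.pt k)
    rw [← Finset.sum_add_distrib]
    exact hol_key X e (hP (g + g') e) ((hP g e).add (hP g' e))
  · intro r g
    funext e
    show ∑ k ∈ e.1, P (r • g) e (X.pt k) = r * ∑ k ∈ e.1, P g e (X.pt k)
    rw [Finset.mul_sum]
    exact hol_key X e (hP (r • g) e) (hol_smul r (hP g e))
  · intro g e s hs
    exact hol_key X e (hP g e) hs

private theorem hol_mem3 {i j k : Fin n} {e : Finset (Fin n)} (he : e.card = 2)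
    (h : e ⊆ {i, j, k}) : e = {i, j} ∨ e = {i, k} ∨ e = {j, k} := by
  obtain ⟨a, b, hab, rfl⟩ := Finset.card_eq_two.1 he
  have ha := h (Finset.mem_insert_self a {b})
  have hb := h (Finset.mem_insert_of_mem (Finset.mem_singleton_self b))
  simp only [Finset.mem_insert, Finset.mem_singleton] at ha hb
  rcases ha with rfl | rfl | rfl <;> rcases hb with rfl | rfl | rfl <;>
    simp_all [Finset.pair_comm]

private theorem hol_sum3 {i j k : Fin n} (hij : i ≠ j) (hik : i ≠ k) (hjk : j ≠ k)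
    (F : Finset (Fin n) → ZMod 2) :
    ∑ e : Ed n, (if e.1 ⊆ ({i, j, k} : Finset (Fin n)) then F e.1 else 0) =
      F {i, j} + (F {i, k} + F {j, k}) := by
  have c1 : ({i, j} : Finset (Fin n)).card = 2 := Finset.card_pair hij
  have c2 : ({i, k} : Finset (Fin n)).card = 2 := Finset.card_pair hik
  have c3 : ({j, k} : Finset (Fin n)).card = 2 := Finset.card_pair hjk
  have n1 : (⟨{i, j}, c1⟩ : Ed n) ∉ ({⟨{i, k}, c2⟩, ⟨{j, k}, c3⟩} : Finset (Ed n)) := by
    intro h
    simp only [Finset.mem_insert, Finset.mem_singleton, Subtype.mk.injEq] at h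
    rcases h with h | h
    · have : j ∈ ({i, k} : Finset (Fin n)) := h ▸ by simp
      simp only [Finset.mem_insert, Finset.mem_singleton] at this
      rcases this with rfl | rfl
      · exact hij rfl
      · exact hjk rfl
    · have : i ∈ ({j, k} : Finset (Fin n)) := h ▸ by simp
      simp only [Finset.mem_insert, Finset.mem_singleton] at this
      rcases this with rfl | rfl
      · exact hij rfl
      · exact hik rfl
  have n2 : (⟨{i, k}, c2⟩ : Ed n) ∉ ({⟨{j, k}, c3⟩} : Finset (Ed n)) := by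
    intro h
    simp only [Finset.mem_singleton, Subtype.mk.injEq] at h
    have : i ∈ ({j, k} : Finset (Fin n)) := h ▸ by simp
    simp only [Finset.mem_insert, Finset.mem_singleton] at this
    rcases this with rfl | rfl
    · exact hij rfl
    · exact hik rfl
  have hs : ∑ e : Ed n, (if e.1 ⊆ ({i, j, k} : Finset (Fin n)) then F e.1 else 0) =
      ∑ e ∈ ({⟨{i, j}, c1⟩, ⟨{i, k}, c2⟩, ⟨{j, k}, c3⟩} : Finset (Ed n)),
        (if e.1 ⊆ ({i, j, k} : Finset (Fin n)) then F e.1 else 0) := by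
    symm
    refine Finset.sum_subset (Finset.subset_univ _) fun e _ he => ?_
    refine if_neg fun hsub => he ?_
    rcases hol_mem3 e.2 hsub with h | h | h
    · simp only [Finset.mem_insert, Finset.mem_singleton]
      exact Or.inl (Subtype.ext h)
    · simp only [Finset.mem_insert, Finset.mem_singleton]
      exact Or.inr (Or.inl (Subtype.ext h))
    · simp only [Finset.mem_insert, Finset.mem_singleton]
      exact Or.inr (Or.inr (Subtype.ext h))
  rw [hs, Finset.sum_insert n1, Finset.sum_insert n2, Finset.sum_singleton]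
  have s1 : ({i, j} : Finset (Fin n)) ⊆ {i, j, k} := by
    intro x hx; simp only [Finset.mem_insert, Finset.mem_singleton] at hx ⊢; tauto
  have s2 : ({i, k} : Finset (Fin n)) ⊆ {i, j, k} := by
    intro x hx; simp only [Finset.mem_insert, Finset.mem_singleton] at hx ⊢; tauto
  have s3 : ({j, k} : Finset (Fin n)) ⊆ {i, j, k} := by
    intro x hx; simp only [Finset.mem_insert, Finset.mem_singleton] at hx ⊢; tauto
  rw [if_pos s1, if_pos s2, if_pos s3]

theorem hol_tri {A : Set M} {h : Zc A →ₗ[ZMod 2] (Ed n → ZMod 2)} (hh : IsHol X A h)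
    {t : Finset (Fin n)} (ht : t ∈ X.T) (hA : X.C t ⊆ A) (g : Zc A) :
    ∑ e : Ed n, (if e.1 ⊆ t then h g e else 0) = 0 := by
  obtain ⟨s, hs⟩ := X.tri_triv ht g.1 (Coc.mono g.2 hA)
  have h1 : ∑ e : Ed n, (if e.1 ⊆ t then h g e else 0) =
      ∑ e : Ed n, (if e.1 ⊆ t then (fun e : Finset (Fin n) => ∑ k ∈ e, s (X.pt k)) e.1 else 0) := by
    refine Finset.sum_congr rfl fun e _ => ?_
    by_cases hsub : e.1 ⊆ t
    · rw [if_pos hsub, if_pos hsub]
      exact hh g e s (hs.mono (X.C_mono hsub))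
    · rw [if_neg hsub, if_neg hsub]
  rw [h1]
  obtain ⟨i, j, k, hij, hik, hjk, rfl⟩ := Finset.card_eq_three.1 (X.card t ht)
  rw [hol_sum3 hij hik hjk (fun e : Finset (Fin n) => ∑ k ∈ e, s (X.pt k))]
  show ∑ k ∈ ({i, j} : Finset (Fin n)), s (X.pt k) + (∑ l ∈ ({i, k} : Finset (Fin n)), s (X.pt l) +
    ∑ l ∈ ({j, k} : Finset (Fin n)), s (X.pt l)) = 0
  rw [Finset.sum_pair hij, Finset.sum_pair hik, Finset.sum_pair hjk]
  have h2 : (2 : ZMod 2) = 0 := by decide
  linear_combination (s (X.pt i) + s (X.pt j) + s (X.pt k)) * h2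

end Pool.Agent.H40.PZ
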