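import Pool.Agent.H40.PZ.Sub
import Pool.Agent.H61.PO.LocalB

/-!
# PZ-14: every edge is in at most two triangles

`le_two`: suppose `t₁, t₂, t₃ ∈ T` are different and contain `e = {i, j}` (`Finset.two_lt_card`).  `Γ = f ⁻¹' (⋃ e', card e' = 2, Sx p e')`: closed.  For `t ∈ T`: `Sx p t ∩ Sx p e' = Sx p (t ∩ e')`, `card (t ∩ e') ≤ 2 < 3`, is contained in
`⋃ k ∈ t, Sx p (t.erase k) = rb (Sx p t)` (`rb_tri`).  `U t = f ⁻¹' (Sx p t \ rb (Sx p t))`, `Sx p t \ rb = ri (Sx p t)` (`rb_eq`).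
(1) `U t` is preconnected (`ri` of a convex set is convex, `conn_preimage`, `tri_uniq`), nonempty (`ri_nonempty`), disjoint from `Γ`, and open: its complement is `f ⁻¹' rb (Sx p t) ∪ ⋃ t' ∈ T, t' ≠ t, f ⁻¹' (Sx p t')`
(`Sx p t ∩ Sx p t' = Sx p (t ∩ t') ⊆ rb (Sx p t)`).  `U t = f ⁻¹' (Sx p t) \ Γ`, so `U t` is closed in `Γᶜ`: for `w ∈ U t`: `connectedComponentIn Γᶜ w = U t` (`⊇`: `IsPreconnected.subset_connectedComponentIn`; `⊆`: the component is
connected, contained in `Γᶜ`, meets `U t`, and `U t` is open and closed in `Γᶜ`: `IsPreconnected.subset_of_...` or `isPreconnected_iff_subset_of_disjoint`).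
(2) `m = (1/2) p i + (1/2) p j`, `m = f y` (`low`).  `y ∈ closure (U t)` for `t = t₁, t₂, t₃`: `sec f` is continuous on `uniq f ⊇ Sx p t` (`sec_cont`), `m_τ = (1 - τ) m + τ p k` (`k` the third element of `t`) is in `ri (Sx p t)` for
`0 < τ < 1` (`mem_ri_tri`) and tends to `m` for `τ -> 0`; `sec f m_τ ∈ U t` tends to `sec f m = y`.
(3) `ArcPt Γ y`: `arcPt_of_scc` for `γ = f ⁻¹' rb (Sx p t₁)` (`scc_preimage`, `two_scc` (file PO/CI.lean), `Sx_dim`), `γ ⊆ Γ` (`rb_tri`), and the neighbourhood `f ⁻¹' (⋃ e' ≠ e, card e' = 2, Sx p e')ᶜ` of `y` (`m` is in no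
`Sx p e'` with `e' ≠ e`: coordinates), whose intersection with `Γ` is contained in `f ⁻¹' (Sx p e) ⊆ γ` (`e = t₁.erase k`).
(4) `adj_two` (file PO/LocalB.lean) for `w_i ∈ U t_i`: two of the sets `U t_i` have a common point `w`: `f w ∈ ri (Sx p t_i) ∩ Sx p t_j ⊆ ri ∩ rb`: contradiction.
-/

namespace Pool.Agent.H40.PZ

open Set Topology Pool.Agent.H61.PO

variable {M : Type*} [MetricSpace M] [CompactSpace M] [Nonempty M]
  {E : Type*} [NormedAddCommGroup E] [NormedSpace ℝ E] [FiniteDimensional ℝ E] {f : M → E}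

omit [CompactSpace M] [Nonempty M] [FiniteDimensional ℝ E] in
private theorem tw2_mem (D : Dat f) {s : Finset (Fin (Module.finrank ℝ E + 1))} {v : E} :
    v ∈ Sx D.p s ↔ (∀ i, 0 ≤ D.B.c i v) ∧ ∀ i, i ∉ s → D.B.c i v = 0 := D.B.hull s v

omit [CompactSpace M] [Nonempty M] [FiniteDimensional ℝ E] in
/-- positive coordinates lie in the support -/
private theorem tw2_sub (D : Dat f) {s t : Finset (Fin (Module.finrank ℝ E + 1))} {v : E}
    (hv : v ∈ Sx D.p s) (ht : ∀ k ∈ t, 0 < D.B.c k v) : t ⊆ s := by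
  intro k hk
  by_contra hks
  have h1 := ((tw2_mem D).1 hv).2 k hks
  have h2 := ht k hk
  linarith

omit [CompactSpace M] [Nonempty M] [FiniteDimensional ℝ E] in
private theorem tw2_cov (D : Dat f) (u : M) : ∃ t ∈ D.T, f u ∈ Sx D.p t := by
  have h : f u ∈ range f := mem_range_self u
  rw [D.rng] at h
  simpa using h

omit [CompactSpace M] [Nonempty M] in
private theorem tw2_ne (D : Dat f) {t : Finset (Fin (Module.finrank ℝ E + 1))} (ht : t ∈ D.T) :
    t.Nonempty := by
  rw [← Finset.card_pos, D.card t ht]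
  norm_num

/-- the open triangle -/
private def tw2U (D : Dat f) (t : Finset (Fin (Module.finrank ℝ E + 1))) : Set M :=
  {u | ∀ k ∈ t, 0 < D.B.c k (f u)}

/-- the union of the boundaries -/
private def tw2X (D : Dat f) : Set M := ⋃ t ∈ D.T, f ⁻¹' rb (Sx D.p t)

omit [CompactSpace M] [Nonempty M] in
private theorem tw2_U (D : Dat f) {t : Finset (Fin (Module.finrank ℝ E + 1))} (ht : t ∈ D.T) :
    tw2U D t = f ⁻¹' ri (Sx D.p t) := by
  ext u
  rw [mem_preimage, mem_ri_tri D.B (tw2_ne D ht)]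
  constructor
  · intro hu
    obtain ⟨t', ht', hu'⟩ := tw2_cov D u
    have hsub := tw2_sub D hu' hu
    have : t = t' := Finset.eq_of_subset_of_card_le hsub (by rw [D.card t ht, D.card t' ht'])
    subst this
    exact ⟨hu', hu⟩
  · rintro ⟨_, h⟩
    exact h

omit [CompactSpace M] [Nonempty M] [FiniteDimensional ℝ E] in
private theorem tw2_open (D : Dat f) (hf : Continuous f)
    (t : Finset (Fin (Module.finrank ℝ E + 1))) : IsOpen (tw2U D t) := by
  have : tw2U D t = ⋂ k ∈ t, {u | 0 < D.B.c k (f u)} := by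
    ext u
    simp [tw2U]
  rw [this]
  apply isOpen_biInter_finset
  intro k _
  exact isOpen_lt continuous_const ((D.B.cont k).comp hf)

omit [CompactSpace M] [Nonempty M] in
private theorem tw2_closed (D : Dat f) (hf : Continuous f) : IsClosed (tw2X D) := by
  unfold tw2X
  apply isClosed_biUnion_finset
  intro t _
  exact (rb_compact (Sx_compact t)).isClosed.preimage hf

omit [CompactSpace M] [Nonempty M] in
private theorem tw2_disj (D : Dat f) {t : Finset (Fin (Module.finrank ℝ E + 1))} (ht : t ∈ D.T) :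
    tw2U D t ⊆ (tw2X D)ᶜ := by
  intro u hu hX
  unfold tw2X at hX
  simp only [mem_iUnion, mem_preimage] at hX
  obtain ⟨t', ht', hX⟩ := hX
  rw [rb_tri D.B (tw2_ne D ht')] at hX
  simp only [mem_iUnion] at hX
  obtain ⟨k, hk, hX⟩ := hX
  have hsub := tw2_sub D hX hu
  have h1 := Finset.card_le_card hsub
  rw [Finset.card_erase_of_mem hk, D.card t ht, D.card t' ht'] at h1
  omega

omit [CompactSpace M] [Nonempty M] in
private theorem tw2_comp (D : Dat f) (hf : Continuous f)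
    {t : Finset (Fin (Module.finrank ℝ E + 1))} (ht : t ∈ D.T) {w : M} (hw : w ∈ tw2U D t) :
    connectedComponentIn (tw2X D)ᶜ w ⊆ tw2U D t := by
  have hcl : IsClosed (f ⁻¹' Sx D.p t) := (Sx_compact t).isClosed.preimage hf
  have hwX : w ∈ (tw2X D)ᶜ := tw2_disj D ht hw
  apply IsPreconnected.subset_left_of_subset_union (tw2_open D hf t) hcl.isOpen_compl
  · rw [Set.disjoint_left]
    intro u hu hu'
    rw [tw2_U D ht, mem_preimage] at hu
    have h1 : f u ∈ Sx D.p t := Pool.Agent.H40.PC.ri_sub hu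
    exact hu' h1
  · intro u hu
    have huX : u ∈ (tw2X D)ᶜ := connectedComponentIn_subset _ _ hu
    by_cases h : f u ∈ Sx D.p t
    · left
      rw [tw2_U D ht, mem_preimage]
      by_contra hri
      apply huX
      unfold tw2X
      simp only [mem_iUnion, mem_preimage]
      refine ⟨t, ht, ?_⟩
      rw [Pool.Agent.H40.PC.rb_eq (Sx_compact t).isClosed]
      exact ⟨h, hri⟩
    · right
      exact h
  · exact ⟨w, mem_connectedComponentIn hwX, hw⟩
  · exact isPreconnected_connectedComponentIn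

private theorem tw2_sub_comp (D : Dat f) (hf : Tight f)
    {t : Finset (Fin (Module.finrank ℝ E + 1))} (ht : t ∈ D.T) {w : M} (hw : w ∈ tw2U D t) :
    tw2U D t ⊆ connectedComponentIn (tw2X D)ᶜ w := by
  apply IsPreconnected.subset_connectedComponentIn _ hw (tw2_disj D ht)
  rw [tw2_U D ht]
  exact conn_preimage hf.cont (Pool.Agent.H40.PC.ri_sub.trans (D.tri_uniq ht))
    (Pool.Agent.H40.PC.ri_convex (Sx_convex t)).isPreconnected

private theorem tw2_clos (D : Dat f) (hf : Tight f)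
    {t : Finset (Fin (Module.finrank ℝ E + 1))} (ht : t ∈ D.T) {m : E} (hm : m ∈ Sx D.p t) :
    sec f m ∈ closure (tw2U D t) := by
  rw [tw2_U D ht, preimage_eq (Pool.Agent.H40.PC.ri_sub.trans (D.tri_uniq ht))]
  have h1 : m ∈ closure (ri (Sx D.p t)) := Pool.Agent.H40.PC.mem_closure_ri (Sx_convex t) hm
  have h2 : ContinuousWithinAt (sec f) (ri (Sx D.p t)) m :=
    (sec_cont hf.cont m (D.tri_uniq ht hm)).mono
      (Pool.Agent.H40.PC.ri_sub.trans (D.tri_uniq ht))
  exact h2.mem_closure_image h1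

theorem Dat.le_two (D : Dat f) (hM : Surf M) (hf : Tight f)
    (hfull : affineSpan ℝ (range f) = ⊤) {e : Finset (Fin (Module.finrank ℝ E + 1))}
    (he : e.card = 2) : (D.T.filter (fun t => e ⊆ t)).card ≤ 2 := by
  by_contra hcon
  rw [not_le, Finset.two_lt_card] at hcon
  obtain ⟨t₁, ht₁, t₂, ht₂, t₃, ht₃, h12, h13, h23⟩ := hcon
  rw [Finset.mem_filter] at ht₁ ht₂ ht₃
  obtain ⟨i, j, hij, rfl⟩ := Finset.card_eq_two.1 he
  have hab : (1 / 2 : ℝ) + 1 / 2 = 1 := by norm_num
  set m : E := (1 / 2 : ℝ) • D.p i + (1 / 2 : ℝ) • D.p j with hm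
  have hmc : ∀ k, D.B.c k m = 1 / 2 * (if k = i then 1 else 0) + 1 / 2 * (if k = j then 1 else 0) := by
    intro k
    rw [hm, D.B.aff k _ _ _ _ hab, D.B.self, D.B.self]
  have hmi : D.B.c i m = 1 / 2 := by
    rw [hmc, if_pos rfl, if_neg hij]
    norm_num
  have hmj : D.B.c j m = 1 / 2 := by
    rw [hmc, if_neg hij.symm, if_pos rfl]
    norm_num
  have hme : m ∈ Sx D.p {i, j} := by
    rw [tw2_mem D]
    constructor
    · intro k
      rw [hmc]
      split_ifs <;> norm_num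
    · intro k hk
      simp only [Finset.mem_insert, Finset.mem_singleton, not_or] at hk
      rw [hmc, if_neg hk.1, if_neg hk.2]
      norm_num
  have hmt : ∀ {t : Finset (Fin (Module.finrank ℝ E + 1))}, {i, j} ⊆ t → m ∈ Sx D.p t :=
    fun h => Sx_mono h hme
  have hmu : m ∈ uniq f := D.tri_uniq ht₁.1 (hmt ht₁.2)
  set y : M := sec f m with hy
  have hfy : f y = m := sec_spec hmu
  -- `y` is an arc point of `X`
  have hbd : ∀ {t : Finset (Fin (Module.finrank ℝ E + 1))}, t ∈ D.T → {i, j} ⊆ t →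
      Sx D.p {i, j} ⊆ rb (Sx D.p t) := by
    intro t ht hijt
    have hc : ({i, j} : Finset (Fin (Module.finrank ℝ E + 1))).card < t.card := by
      rw [he, D.card t ht]
      norm_num
    obtain ⟨k, hk, hk'⟩ := Finset.exists_mem_notMem_of_card_lt_card hc
    rw [rb_tri D.B (tw2_ne D ht)]
    intro v hv
    simp only [mem_iUnion]
    refine ⟨k, hk, Sx_mono ?_ hv⟩
    intro x hx
    rw [Finset.mem_erase]
    refine ⟨?_, hijt hx⟩
    rintro rfl
    exact hk' hx
  have harc : ArcPt (tw2X D) y := by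
    apply arcPt_of_scc (γ := f ⁻¹' rb (Sx D.p t₁))
    · have hrb : rb (Sx D.p t₁) ⊆ Sx D.p t₁ := by
        rw [Pool.Agent.H40.PC.rb_eq (Sx_compact t₁).isClosed]
        exact sdiff_subset
      exact scc_preimage hf.cont (hrb.trans (D.tri_uniq ht₁.1))
        (two_scc (Sx_convex t₁) (Sx_compact t₁) (Sx_dim D.hp (D.card t₁ ht₁.1)))
    · exact tw2_closed D hf.cont
    · unfold tw2X
      exact subset_biUnion_of_mem (u := fun t => f ⁻¹' rb (Sx D.p t)) ht₁.1
    · rw [mem_preimage, hfy]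
      exact hbd ht₁.1 ht₁.2 hme
    · refine ⟨tw2U D {i, j}, (tw2_open D hf.cont _).mem_nhds ?_, ?_⟩
      · intro k hk
        rw [hfy]
        simp only [Finset.mem_insert, Finset.mem_singleton] at hk
        rcases hk with rfl | rfl
        · rw [hmi]
          norm_num
        · rw [hmj]
          norm_num
      · rintro u ⟨hu, huX⟩
        unfold tw2X at huX
        simp only [mem_iUnion, mem_preimage] at huX
        obtain ⟨t', ht', huX⟩ := huX
        rw [rb_tri D.B (tw2_ne D ht')] at huX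
        simp only [mem_iUnion] at huX
        obtain ⟨k, hk, huX⟩ := huX
        have hsub := tw2_sub D huX hu
        have heq : {i, j} = t'.erase k := by
          apply Finset.eq_of_subset_of_card_le hsub
          rw [Finset.card_erase_of_mem hk, D.card t' ht', he]
        rw [← heq] at huX
        exact hbd ht₁.1 ht₁.2 huX
  -- the three components
  have hne : ∀ {t : Finset (Fin (Module.finrank ℝ E + 1))}, t ∈ D.T → {i, j} ⊆ t →
      (tw2U D t).Nonempty := by
    intro t ht hijt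
    have := tw2_clos D hf ht (hmt hijt)
    exact closure_nonempty_iff.1 ⟨_, this⟩
  obtain ⟨w₁, hw₁⟩ := hne ht₁.1 ht₁.2
  obtain ⟨w₂, hw₂⟩ := hne ht₂.1 ht₂.2
  obtain ⟨w₃, hw₃⟩ := hne ht₃.1 ht₃.2
  have hc : ∀ {t : Finset (Fin (Module.finrank ℝ E + 1))}, t ∈ D.T → {i, j} ⊆ t → ∀ {w : M},
      w ∈ tw2U D t → y ∈ closure (connectedComponentIn (tw2X D)ᶜ w) := by
    intro t ht hijt w hw
    exact closure_mono (tw2_sub_comp D hf ht hw) (tw2_clos D hf ht (hmt hijt))
  have hdis : ∀ {t t' : Finset (Fin (Module.finrank ℝ E + 1))}, t ∈ D.T → t' ∈ D.T → t ≠ t' →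
      ∀ {w : M}, w ∈ tw2U D t → w ∈ tw2U D t' → False := by
    intro t t' ht ht' hne' w hw hw'
    rw [tw2_U D ht] at hw
    have h1 := tw2_sub D (Pool.Agent.H40.PC.ri_sub hw) hw'
    exact hne' (Finset.eq_of_subset_of_card_le h1 (by rw [D.card t ht, D.card t' ht'])).symm
  rcases adj_two hM (tw2_closed D hf.cont) harc (hc ht₁.1 ht₁.2 hw₁) (hc ht₂.1 ht₂.2 hw₂)
    (hc ht₃.1 ht₃.2 hw₃) with h | h | h
  · exact hdis ht₁.1 ht₂.1 h12 (tw2_comp D hf.cont ht₁.1 hw₁ h) hw₂
  · exact hdis ht₁.1 ht₃.1 h13 (tw2_comp D hf.cont ht₁.1 hw₁ h) hw₃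
  · exact hdis ht₂.1 ht₃.1 h23 (tw2_comp D hf.cont ht₂.1 hw₂ h) hw₃

end Pool.Agent.H40.PZ
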