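import Pool.Agent.H40.PZ.Tw1
import Pool.Agent.H40.PZ.Tw2
import Pool.Agent.H40.PZ.Dsk
import Pool.Agent.H40.PZ.Bou

/-!
# PZ-15: the triangulation of `M` defined by a tight map onto a subcomplex of the simplex

`exists_tri`: `C s = f ⁻¹' Sx p s`, `T = D.T`, `pt k = sec f (p k)`.
`empty`: `Sx_empty`.  `single`: `Sx_single`, `p k ∈ uniq f` (`p_mem`, `val_uniq`), `preimage_eq`.  `inter`: `preimage_inter`, `Sx_inter`.
`arc`: `Sx_pair`; the segment is an arc (`t ↦ p i + t • (p j - p i)`, injective as `p i ≠ p j`: `hp.injective`), `arc_preimage` (file PO/PC.lean) with `low`.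
`disc`: `disc_body` for `Sx p t` (`Sx_dim`) gives `φ`; take `sec f ∘ φ` (`sec_cont`, `sec_injOn`, `tri_uniq`); the images: `preimage_eq`, `rb_tri`, `preimage_iUnion`.
`cover`: `D.rng`.  `two`: `two_le`, `le_two`.

`card_count`: double counting of the pairs `(t, e)`, `t ∈ T`, `card e = 2`, `e ⊆ t`: `∑ t ∈ T, 3 = ∑ e, 2` (`Finset.sum_card_bipartiteAbove_eq_sum_card_bipartiteBelow`; the number of two-element subsets of `t` is `choose 3 2 = 3`:
`Finset.card_powersetCard`; the number of all `e` is `n.choose 2`).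
-/

namespace Pool.Agent.H40.PZ

open Set Topology Metric Pool.Agent.H61.PO

theorem card_count {M : Type*} [TopologicalSpace M] {n : ℕ} (X : Tri M n) :
    3 * X.T.card = 2 * n.choose 2 := by
  classical
  have h := Finset.sum_card_bipartiteAbove_eq_sum_card_bipartiteBelow
    (s := X.T) (t := Finset.powersetCard 2 (Finset.univ : Finset (Fin n)))
    (fun (t : Finset (Fin n)) (e : Finset (Fin n)) => e ⊆ t)
  have h1 : ∀ t ∈ X.T, (Finset.bipartiteAbove (fun (t : Finset (Fin n)) (e : Finset (Fin n)) => e ⊆ t)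
      (Finset.powersetCard 2 (Finset.univ : Finset (Fin n))) t).card = 3 := by
    intro t ht
    have h2 : Finset.bipartiteAbove (fun (t : Finset (Fin n)) (e : Finset (Fin n)) => e ⊆ t)
      (Finset.powersetCard 2 (Finset.univ : Finset (Fin n))) t = Finset.powersetCard 2 t := by
      ext e
      simp only [Finset.bipartiteAbove, Finset.mem_filter, Finset.mem_powersetCard,
        Finset.subset_univ, true_and]
      tauto
    rw [h2, Finset.card_powersetCard, X.card t ht]
    rfl
  have h3 : ∀ e ∈ Finset.powersetCard 2 (Finset.univ : Finset (Fin n)),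
      (Finset.bipartiteBelow (fun (t : Finset (Fin n)) (e : Finset (Fin n)) => e ⊆ t)
        X.T e).card = 2 := by
    intro e he
    exact X.two e (Finset.mem_powersetCard.1 he).2
  rw [Finset.sum_congr rfl h1, Finset.sum_congr rfl h3, Finset.sum_const, Finset.sum_const,
    Finset.card_powersetCard, Finset.card_univ, Fintype.card_fin, smul_eq_mul, smul_eq_mul] at h
  rw [mul_comm 3, mul_comm 2]
  exact h

variable {M : Type*} [MetricSpace M] [CompactSpace M] [Nonempty M]
  {E : Type*} [NormedAddCommGroup E] [NormedSpace ℝ E] [FiniteDimensional ℝ E] {f : M → E}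

omit [FiniteDimensional ℝ E] in
private theorem Ins_arc {x y : E} (hxy : x ≠ y) : IsArc (segment ℝ x y) x y := by
  refine ⟨fun t => x + t • (y - x), by fun_prop, ?_, segment_eq_image' ℝ x y, by simp, by simp⟩
  intro s _ t _ hst
  have h1 : s • (y - x) = t • (y - x) := add_left_cancel hst
  exact smul_left_injective ℝ (sub_ne_zero.2 hxy.symm) h1

theorem exists_tri (D : Dat f) (hM : Surf M) (hf : Tight f)
    (hfull : affineSpan ℝ (range f) = ⊤) : Nonempty (Tri M (Module.finrank ℝ E + 1)) := by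
  have hlow : ∀ s : Finset (Fin (Module.finrank ℝ E + 1)), s.card ≤ 2 → Sx D.p s ⊆ uniq f :=
    fun s hs => D.low hfull hf hs
  refine ⟨{ C := fun s => f ⁻¹' Sx D.p s, T := D.T, pt := fun k => sec f (D.p k),
            card := D.card, empty := ?_, single := ?_, inter := ?_, arc := ?_, disc := ?_,
            cover := ?_, two := ?_ }⟩
  · show f ⁻¹' Sx D.p ∅ = ∅
    rw [Sx_empty, preimage_empty]
  · intro k
    have h1 : Sx D.p {k} ⊆ uniq f := hlow {k} (by simp)
    show f ⁻¹' Sx D.p {k} = {sec f (D.p k)}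
    rw [preimage_eq h1, Sx_single, image_singleton]
  · intro s s'
    show f ⁻¹' Sx D.p s ∩ f ⁻¹' Sx D.p s' = f ⁻¹' Sx D.p (s ∩ s')
    rw [← preimage_inter, Sx_inter D.B]
  · intro i j hij
    have h1 : Sx D.p {i, j} ⊆ uniq f := hlow {i, j} Finset.card_le_two
    show IsArc (f ⁻¹' Sx D.p {i, j}) _ _
    rw [Sx_pair] at h1 ⊢
    exact arc_preimage hf.cont h1 (Ins_arc fun h => hij (D.hp.injective h))
  · intro t ht
    have hc : t.card = 2 + 1 := D.card t ht
    have hne : t.Nonempty := Finset.card_pos.1 (by omega)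
    obtain ⟨k, hk⟩ := hne
    have hu : Sx D.p t ⊆ uniq f := D.tri_uniq ht
    obtain ⟨φ, h1, h2, h3, h4⟩ := disc_body (F := Sx D.p t)
      ⟨Sx_convex t, Sx_compact t, D.p k, mem_Sx_self hk⟩ (Sx_dim D.hp hc)
    have hm : MapsTo φ (closedBall 0 1) (uniq f) := by
      intro z hz
      apply hu
      rw [← h3]
      exact mem_image_of_mem φ hz
    refine ⟨sec f ∘ φ, (sec_cont hf.cont).comp h1 hm, sec_injOn.comp h2 hm, ?_, ?_⟩
    · show (sec f ∘ φ) '' closedBall 0 1 = f ⁻¹' Sx D.p t
      rw [image_comp, h3, preimage_eq hu]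
    · have h5 : rb (Sx D.p t) ⊆ uniq f := by
        rw [rb_tri D.B ⟨k, hk⟩]
        intro v hv
        obtain ⟨j, -, hj⟩ := mem_iUnion₂.1 hv
        exact hu (Sx_mono (Finset.erase_subset _ _) hj)
      show (sec f ∘ φ) '' sphere 0 1 = ⋃ k ∈ t, f ⁻¹' Sx D.p (t.erase k)
      rw [image_comp, h4, ← preimage_eq h5, rb_tri D.B ⟨k, hk⟩]
      simp only [preimage_iUnion]
  · intro x
    have h1 : f x ∈ range f := mem_range_self x
    rw [D.rng] at h1
    obtain ⟨t, ht, hx⟩ := mem_iUnion₂.1 h1
    exact ⟨t, ht, hx⟩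
  · intro e he
    exact le_antisymm (D.le_two hM hf hfull he) (D.two_le hM hf hfull he)

end Pool.Agent.H40.PZ
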