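import Pool.Agent.H40.PZ.Bar
import Pool.Agent.H61.PO.CI

/-!
# PZ-10: faces of a simplex

`Sx p s = convexHull (p '' s)`; `B : Bar p` are the barycentric coordinates: `x ∈ Sx p s` iff all `c i x ≥ 0` and `c i x = 0` for `i ∉ s` (`B.hull`).
* `Sx_inter`, `Sx_mono`, `Sx_empty`, `Sx_single`, `mem_Sx_self`: immediate from `B.hull` (or direct).
* `Sx_body`: convex hull of a finite set (`Set.Finite.isCompact_convexHull`).
* `Sx_dim`: `dimc (Sx p s) = finrank (vectorSpan (p '' s))` (`PC.dimc_convexHull`, file H40/PC/Dim.lean, or `affineSpan_convexHull`), and `AffineIndependent.finrank_vectorSpan_image_finset`; `p` is affinely independent since the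
  coordinates of an affine combination are its weights; it is a hypothesis here.
* `Sx_face`: `IsExtreme`: `x ∈ Sx p s`, `x` in the open segment of `y, z ∈ Sx p univ`: `x = a y + b z`, `a, b > 0`, `a + b = 1`: for `i ∉ s`: `0 = c i x = a c i y + b c i z` with nonnegative summands, so `c i y = 0`.
* `Sx_pair`: `convexHull_pair`.
* `mem_ri_tri`: `mem_ri_iff` (file H40/PC/Rin.lean).  If `c k y > 0` for all `k ∈ t` and `x ∈ Sx p t`: `y + τ (y - x) = (1 + τ) y - τ x` has the coordinates `c k y + τ (c k y - c k x)`, `0` for `k ∉ t` and nonnegative for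
  `k ∈ t` and small `τ > 0` (finitely many `k`; e.g. `τ = min_k c k y`, as `c k x ≤ 1`).  Conversely if `c k y = 0` for some `k ∈ t`, take `x = p k`: the coordinate `k` of `y + τ (y - x)` is `-τ < 0`.
* `rb_tri`: `rb_eq` and `mem_ri_tri`: `y ∈ Sx p t` with `c k y = 0` for some `k ∈ t`, that is `y ∈ Sx p (t.erase k)`.
-/

namespace Pool.Agent.H40.PZ

open Set Topology Pool.Agent.H61.PO

variable {E : Type*} [NormedAddCommGroup E] [NormedSpace ℝ E] {n : ℕ} {p : Fin n → E}

/-- a face of the simplex -/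
def Sx (p : Fin n → E) (s : Finset (Fin n)) : Set E := convexHull ℝ (p '' (s : Set (Fin n)))

theorem Sx_empty : Sx p ∅ = ∅ := by
  unfold Sx
  rw [Finset.coe_empty, image_empty, convexHull_empty]

theorem Sx_single (k : Fin n) : Sx p {k} = {p k} := by
  unfold Sx
  rw [Finset.coe_singleton, image_singleton, convexHull_singleton]

theorem Sx_pair (i j : Fin n) : Sx p {i, j} = segment ℝ (p i) (p j) := by
  unfold Sx
  rw [Finset.coe_pair, image_pair, convexHull_pair]

theorem Sx_univ : Sx p Finset.univ = convexHull ℝ (range p) := by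
  unfold Sx
  rw [Finset.coe_univ, image_univ]

theorem Sx_mono {s s' : Finset (Fin n)} (h : s ⊆ s') : Sx p s ⊆ Sx p s' :=
  convexHull_mono (image_mono (Finset.coe_subset.2 h))

theorem mem_Sx_self {k : Fin n} {s : Finset (Fin n)} (h : k ∈ s) : p k ∈ Sx p s :=
  subset_convexHull ℝ _ (mem_image_of_mem p (Finset.mem_coe.2 h))

theorem Sx_convex (s : Finset (Fin n)) : Convex ℝ (Sx p s) := convex_convexHull ℝ _

theorem Sx_compact (s : Finset (Fin n)) : IsCompact (Sx p s) :=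
  (s.finite_toSet.image p).isCompact_convexHull ℝ

private theorem smp_mem (B : Bar p) (s : Finset (Fin n)) (x : E) :
    x ∈ Sx p s ↔ (∀ i, 0 ≤ B.c i x) ∧ ∀ i, i ∉ s → B.c i x = 0 := B.hull s x

theorem Sx_inter (B : Bar p) (s s' : Finset (Fin n)) : Sx p s ∩ Sx p s' = Sx p (s ∩ s') := by
  ext x
  rw [mem_inter_iff, smp_mem B, smp_mem B, smp_mem B]
  constructor
  · rintro ⟨⟨h1, h2⟩, ⟨-, h3⟩⟩
    refine ⟨h1, fun i hi => ?_⟩
    by_cases hs : i ∈ s
    · exact h3 i fun hs' => hi (Finset.mem_inter.2 ⟨hs, hs'⟩)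
    · exact h2 i hs
  · rintro ⟨h1, h2⟩
    exact ⟨⟨h1, fun i hi => h2 i fun h => hi (Finset.mem_inter.1 h).1⟩,
      ⟨h1, fun i hi => h2 i fun h => hi (Finset.mem_inter.1 h).2⟩⟩

theorem Sx_face (B : Bar p) {s : Finset (Fin n)} (hs : s.Nonempty) :
    IsFace (Sx p Finset.univ) (Sx p s) := by
  obtain ⟨k, hk⟩ := hs
  refine ⟨⟨Sx_mono (Finset.subset_univ s), ?_⟩, Sx_convex s, Sx_compact s, ⟨p k, mem_Sx_self hk⟩⟩
  intro y hy z hz x hx hxyz
  obtain ⟨a, b, ha, hb, hab, rfl⟩ := hxyz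
  rw [smp_mem B] at hy hz hx ⊢
  refine ⟨hy.1, fun i hi => ?_⟩
  have h1 := hx.2 i hi
  rw [B.aff i y z a b hab] at h1
  have h2 := mul_nonneg ha.le (hy.1 i)
  have h3 := mul_nonneg hb.le (hz.1 i)
  have h4 : a * B.c i y = 0 := by linarith
  exact (mul_eq_zero.1 h4).resolve_left ha.ne'

variable [FiniteDimensional ℝ E]

theorem Sx_dim (hp : AffineIndependent ℝ p) {s : Finset (Fin n)} {m : ℕ} (hs : s.card = m + 1) :
    dimc (Sx p s) = m := by
  classical
  have h1 := hp.finrank_vectorSpan_image_finset hs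
  rw [Finset.coe_image] at h1
  unfold Sx
  rw [Pool.Agent.H40.PC.dimc_convexHull]
  exact h1

private theorem smp_ext (B : Bar p) (k : Fin n) (x y : E) (τ : ℝ) :
    B.c k (y + τ • (y - x)) = B.c k y + τ * (B.c k y - B.c k x) := by
  have h1 : y + τ • (y - x) = (1 + τ) • y + (-τ) • x := by
    rw [add_smul, one_smul, neg_smul, smul_sub]
    abel
  rw [h1, B.aff k y x (1 + τ) (-τ) (by ring)]
  ring

private theorem smp_le_one (B : Bar p) {x : E} (hx : ∀ i, 0 ≤ B.c i x) (k : Fin n) :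
    B.c k x ≤ 1 := by
  rw [← B.sum x]
  exact Finset.single_le_sum (f := fun i => B.c i x) (fun i _ => hx i) (Finset.mem_univ k)

theorem mem_ri_tri (B : Bar p) {t : Finset (Fin n)} (ht : t.Nonempty) {y : E} :
    y ∈ ri (Sx p t) ↔ y ∈ Sx p t ∧ ∀ k ∈ t, 0 < B.c k y := by
  rw [Pool.Agent.H40.PC.mem_ri_iff (Sx_convex t)]
  constructor
  · rintro ⟨hy, h⟩
    refine ⟨hy, fun k hk => ?_⟩
    have hy' := (smp_mem B t y).1 hy
    refine lt_of_le_of_ne (hy'.1 k) fun h0 => ?_
    obtain ⟨τ, hτ, h1⟩ := h (p k) (mem_Sx_self hk)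
    have h2 := ((smp_mem B t _).1 h1).1 k
    rw [smp_ext B, ← h0, B.self, if_pos rfl] at h2
    linarith
  · rintro ⟨hy, h⟩
    refine ⟨hy, fun x hx => ?_⟩
    obtain ⟨m, hm, hmin⟩ := Finset.exists_min_image t (fun k => B.c k y) ht
    refine ⟨B.c m y, h m hm, ?_⟩
    have hy' := (smp_mem B t y).1 hy
    have hx' := (smp_mem B t x).1 hx
    have hm0 := h m hm
    rw [smp_mem B]
    constructor
    · intro i
      rw [smp_ext B]
      by_cases hi : i ∈ t
      · have h1 := hmin i hi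
        have h2 := smp_le_one B hx'.1 i
        have h3 := hx'.1 i
        have h4 := hy'.1 i
        have h5 : B.c m y * B.c i x ≤ B.c m y * 1 := mul_le_mul_of_nonneg_left h2 hm0.le
        have h6 : 0 ≤ B.c m y * B.c i y := mul_nonneg hm0.le h4
        have h7 : B.c m y ≤ B.c i y := h1
        linarith
      · rw [hy'.2 i hi, hx'.2 i hi]
        simp
    · intro i hi
      rw [smp_ext B, hy'.2 i hi, hx'.2 i hi]
      simp

theorem rb_tri (B : Bar p) {t : Finset (Fin n)} (ht : t.Nonempty) :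
    rb (Sx p t) = ⋃ k ∈ t, Sx p (t.erase k) := by
  rw [Pool.Agent.H40.PC.rb_eq (Sx_compact t).isClosed]
  ext y
  rw [mem_sdiff, mem_ri_tri B ht, mem_iUnion₂]
  constructor
  · rintro ⟨hy, h⟩
    have hy' := (smp_mem B t y).1 hy
    have h1 : ∃ k ∈ t, ¬ 0 < B.c k y := by
      by_contra hcon
      refine h ⟨hy, fun k hk => ?_⟩
      by_contra h2
      exact hcon ⟨k, hk, h2⟩
    obtain ⟨k, hk, hk0⟩ := h1
    refine ⟨k, hk, (smp_mem B _ y).2 ⟨hy'.1, fun i hi => ?_⟩⟩
    by_cases hik : i = k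
    · rw [hik]
      exact le_antisymm (not_lt.1 hk0) (hy'.1 k)
    · exact hy'.2 i fun hit => hi (Finset.mem_erase.2 ⟨hik, hit⟩)
  · rintro ⟨k, hk, hy⟩
    refine ⟨Sx_mono (Finset.erase_subset k t) hy, ?_⟩
    rintro ⟨-, h⟩
    have h1 := ((smp_mem B _ y).1 hy).2 k (Finset.notMem_erase k t)
    have h2 := h k hk
    rw [h1] at h2
    exact lt_irrefl _ h2

end Pool.Agent.H40.PZ
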