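import Pool.Agent.H40.PZ.Smp
import Pool.Agent.H61.PO.PD
import Pool.Agent.H61.PQ.Defs

/-!
# PZ-12: tight maps onto subcomplexes of a simplex: the one-skeleton

`Dat f`: the data of `IsSub f` with barycentric coordinates `B`.
* `exists_dat`: unpack `IsSub f` (`T` is a set of finsets of the finite type `Fin _`, so finite: `T.toFinset` with classical decidability), `exists_bar`.
* `exists_mem`: if `k` is in no `t ∈ T` then `c k = 0` on all `Sx p t`, `t ∈ T` (`B.hull`), so on `range f`; `{c k = 0}` is contained in the affine span of the other points (`B.span` for `univ.erase k`), which does not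
  contain `p k` (`c k (p k) = 1`): contradiction to `affineSpan (range f) = ⊤` (`affineSpan_le`).
* `p_mem`: from `exists_mem`, `p k ∈ Sx p t ⊆ range f`.
* `hul_eq`: `range f ⊆ Sx p univ` (convex) and all `p k ∈ range f`.
* `low`: `Sx p s` is a face of `hul f = Sx p univ` (`Sx_face`) of dimension `card s - 1 ≤ 1` (`Sx_dim`): `low_uniq` (file PO/PD.lean).
* `tri_uniq`: `f` is injective: every value is in `uniq f`.
-/

namespace Pool.Agent.H40.PZ

open Set Topology Pool.Agent.H61.PO

variable {M : Type*} [TopologicalSpace M]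
  {E : Type*} [NormedAddCommGroup E] [NormedSpace ℝ E] {f : M → E}

/-- the data of a subcomplex of the simplex -/
structure Dat (f : M → E) where
  p : Fin (Module.finrank ℝ E + 1) → E
  T : Finset (Finset (Fin (Module.finrank ℝ E + 1)))
  hp : AffineIndependent ℝ p
  B : Bar p
  card : ∀ t ∈ T, t.card = 3
  inj : Function.Injective f
  rng : range f = ⋃ t ∈ T, Sx p t

variable [FiniteDimensional ℝ E]

theorem exists_dat (h : IsSub f) : Nonempty (Dat f) := by
  classical
  obtain ⟨hinj, p, T, hp, hT, hr⟩ := h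
  obtain ⟨B⟩ := exists_bar hp
  have hfin : T.Finite := Set.toFinite T
  refine ⟨⟨p, hfin.toFinset, hp, B, ?_, hinj, ?_⟩⟩
  · intro t ht
    exact hT t (hfin.mem_toFinset.1 ht)
  · rw [hr]
    ext x
    simp only [Set.mem_iUnion, Set.Finite.mem_toFinset, Sx]

namespace Dat

variable (D : Dat f)

include D in
theorem val_uniq (a : M) : f a ∈ uniq f := by
  refine ⟨a, Set.Subset.antisymm ?_ ?_⟩
  · intro b hb
    exact D.inj hb
  · rintro b rfl
    rfl

theorem tri_uniq {t : Finset (Fin (Module.finrank ℝ E + 1))} (ht : t ∈ D.T) :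
    Sx D.p t ⊆ uniq f := by
  intro x hx
  have h1 : x ∈ range f := by
    rw [D.rng]
    exact Set.mem_iUnion₂.2 ⟨t, ht, hx⟩
  obtain ⟨a, rfl⟩ := h1
  exact D.val_uniq a

variable (hfull : affineSpan ℝ (range f) = ⊤)
include hfull

theorem exists_mem (k : Fin (Module.finrank ℝ E + 1)) : ∃ t ∈ D.T, k ∈ t := by
  classical
  by_contra hcon
  push Not at hcon
  have h1 : range f ⊆ affineSpan ℝ (D.p '' ((Finset.univ.erase k :
      Finset (Fin (Module.finrank ℝ E + 1))) : Set (Fin (Module.finrank ℝ E + 1)))) := by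
    intro x hx
    rw [D.rng] at hx
    obtain ⟨t, ht, hxt⟩ := Set.mem_iUnion₂.1 hx
    rw [SetLike.mem_coe, D.B.span]
    intro i hi
    have hik : i = k := by
      by_contra h
      exact hi (Finset.mem_erase.2 ⟨h, Finset.mem_univ _⟩)
    rw [hik]
    exact ((D.B.hull t x).1 hxt).2 k (hcon t ht)
  have h2 := affineSpan_le.2 h1
  rw [hfull] at h2
  have h3 : D.p k ∈ affineSpan ℝ (D.p '' ((Finset.univ.erase k :
      Finset (Fin (Module.finrank ℝ E + 1))) : Set (Fin (Module.finrank ℝ E + 1)))) :=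
    h2 (AffineSubspace.mem_top ℝ E (D.p k))
  rw [D.B.span] at h3
  have h4 := h3 k (Finset.notMem_erase k _)
  rw [D.B.self, if_pos rfl] at h4
  exact one_ne_zero h4

theorem p_mem (k : Fin (Module.finrank ℝ E + 1)) : D.p k ∈ range f := by
  obtain ⟨t, ht, hk⟩ := D.exists_mem hfull k
  rw [D.rng]
  exact Set.mem_iUnion₂.2 ⟨t, ht, mem_Sx_self hk⟩

theorem hul_eq : hul f = Sx D.p Finset.univ := by
  apply Set.Subset.antisymm
  · refine convexHull_min ?_ (Sx_convex _)
    intro x hx
    rw [D.rng] at hx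
    obtain ⟨t, -, hxt⟩ := Set.mem_iUnion₂.1 hx
    exact Sx_mono (Finset.subset_univ t) hxt
  · rw [Sx_univ]
    refine convexHull_mono ?_
    rintro x ⟨k, rfl⟩
    exact D.p_mem hfull k

theorem low [CompactSpace M] [T2Space M] [Nonempty M] (hf : Tight f)
    {s : Finset (Fin (Module.finrank ℝ E + 1))} (hs : s.card ≤ 2) : Sx D.p s ⊆ uniq f := by
  rcases s.eq_empty_or_nonempty with rfl | hne
  · rw [Sx_empty]
    exact Set.empty_subset _
  · have hc : 0 < s.card := hne.card_pos
    have hF : IsFace (hul f) (Sx D.p s) := by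
      rw [D.hul_eq hfull]
      exact Sx_face D.B hne
    obtain ⟨m, hm⟩ : ∃ m, s.card = m + 1 := ⟨s.card - 1, by omega⟩
    refine low_uniq hf hF ?_
    rw [Sx_dim D.hp hm]
    omega

end Dat

end Pool.Agent.H40.PZ
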