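import Pool.Agent.H61.PO.Triv
import Pool.Agent.H61.PQ.Defs

/-!
# PZ-01: triangulations with complete one-skeleton (converse part ZZ of note 1414, helper40)

`Tri M n`: closed cells `C s` (`s` a finite set of vertices; only `card s ≤ 3` matters), the triangles `T`, the vertices `pt k`.
`bd t` is the boundary of the triangle `t`.

Proofs (all short):
* `C_mono`: `inter` with `s ∩ s' = s`.  `pt_mem`: `C {k} ⊆ C s`.  `pt_inj`: `C {i} ∩ C {j} = C ∅` if `i ≠ j`.
* `edge_*`: `card e = 2`: `e = {i, j}` (`Finset.card_eq_two`), `IsArc.compact`, `IsArc.preconn`, `IsArc.triv`.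
* `tri_compact`, `tri_triv`: image of the closed disc, `Triv.image` and `triv_star` (star shaped about `0`).
* `bd_sub`: `C_mono`.  `bd_compact`, `bd_preconn`: image of the unit circle (`SCC.preconn (scc_sphere one_pos)`).
* `inter_bd`: `t ∩ s ≠ t`, so `t ∩ s ⊆ t.erase k` for some `k ∈ t`.
* `edge_inter_bd`: special case, `card e = 2 < 3`.
* `op_isOpen`: the complement of `C t \ bd t` is `bd t ∪ ⋃ (t' ∈ T, t' ≠ t) C t'`: a point of `C t'` which is in `C t` is in `bd t` (`inter_bd`, two different sets of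
  three elements); a point of `C t \ bd t` is in no other `C t'`; `cover`.  Finite union of compact sets.
* `op_nonempty`: `φ 0` is not in `φ '' sphere 0 1` (injective).
* `tri_infinite`: it contains an arc (or the injective image of the disc), an infinite set.
-/

namespace Pool.Agent.H40.PZ

open Set Topology Metric Pool.Agent.H61.PO

/-- a triangulation of `M` with vertices `Fin n` and complete one-skeleton, every edge in exactly two triangles -/
structure Tri (M : Type*) [TopologicalSpace M] (n : ℕ) where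
  C : Finset (Fin n) → Set M
  T : Finset (Finset (Fin n))
  pt : Fin n → M
  card : ∀ t ∈ T, t.card = 3
  empty : C ∅ = ∅
  single : ∀ k, C {k} = {pt k}
  inter : ∀ s s', C s ∩ C s' = C (s ∩ s')
  arc : ∀ i j, i ≠ j → IsArc (C {i, j}) (pt i) (pt j)
  disc : ∀ t ∈ T, ∃ φ : ℂ → M, ContinuousOn φ (closedBall 0 1) ∧ InjOn φ (closedBall 0 1) ∧
    φ '' closedBall 0 1 = C t ∧ φ '' sphere 0 1 = ⋃ k ∈ t, C (t.erase k)
  cover : ∀ x, ∃ t ∈ T, x ∈ C t
  two : ∀ e : Finset (Fin n), e.card = 2 → (T.filter (fun t => e ⊆ t)).card = 2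

/-- edges -/
abbrev Ed (n : ℕ) : Type := {e : Finset (Fin n) // e.card = 2}

namespace Tri

variable {M : Type*} [TopologicalSpace M] {n : ℕ} (X : Tri M n) {s s' t e : Finset (Fin n)}

/-- the boundary of a triangle -/
def bd (t : Finset (Fin n)) : Set M := ⋃ k ∈ t, X.C (t.erase k)

theorem C_mono (h : s ⊆ s') : X.C s ⊆ X.C s' := by
  have h1 := X.inter s s'
  rw [Finset.inter_eq_left.2 h] at h1
  rw [← h1]
  exact inter_subset_right

theorem pt_mem {k : Fin n} (h : k ∈ s) : X.pt k ∈ X.C s := by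
  apply X.C_mono (Finset.singleton_subset_iff.2 h)
  rw [X.single]
  exact mem_singleton _

theorem pt_inj : Function.Injective X.pt := by
  intro i j hij
  by_contra hne
  have h1 := X.inter {i} {j}
  rw [Finset.singleton_inter_of_notMem (by simpa using hne), X.empty, X.single, X.single, hij,
    inter_self] at h1
  exact singleton_ne_empty _ h1

theorem bd_sub (t : Finset (Fin n)) : X.bd t ⊆ X.C t := by
  intro x hx
  simp only [bd, mem_iUnion] at hx
  obtain ⟨k, _, hk⟩ := hx
  exact X.C_mono (Finset.erase_subset _ _) hk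

theorem inter_bd (h : ¬ t ⊆ s) : X.C t ∩ X.C s ⊆ X.bd t := by
  rw [X.inter]
  obtain ⟨k, hk, hks⟩ := Finset.not_subset.1 h
  intro x hx
  simp only [bd, mem_iUnion]
  refine ⟨k, hk, X.C_mono ?_ hx⟩
  intro j hj
  rw [Finset.mem_inter] at hj
  rw [Finset.mem_erase]
  refine ⟨?_, hj.1⟩
  rintro rfl
  exact hks hj.2

theorem edge_inter_bd (ht : t ∈ X.T) (he : e.card = 2) : X.C e ∩ X.C t ⊆ X.bd t := by
  rw [inter_comm]
  apply X.inter_bd
  intro h
  have h1 := Finset.card_le_card h
  rw [X.card t ht, he] at h1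
  omega

theorem edge_compact (he : e.card = 2) : IsCompact (X.C e) := by
  obtain ⟨i, j, hij, rfl⟩ := Finset.card_eq_two.1 he
  exact (X.arc i j hij).compact

theorem edge_preconn (he : e.card = 2) : IsPreconnected (X.C e) := by
  obtain ⟨i, j, hij, rfl⟩ := Finset.card_eq_two.1 he
  exact (X.arc i j hij).preconn

theorem tri_compact (ht : t ∈ X.T) : IsCompact (X.C t) := by
  obtain ⟨φ, h1, h2, h3, h4⟩ := X.disc t ht
  rw [← h3]
  exact (isCompact_closedBall 0 1).image_of_continuousOn h1

theorem bd_compact (ht : t ∈ X.T) : IsCompact (X.bd t) := by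
  obtain ⟨φ, h1, h2, h3, h4⟩ := X.disc t ht
  have h5 : X.bd t = φ '' sphere 0 1 := h4.symm
  rw [h5]
  exact (isCompact_sphere 0 1).image_of_continuousOn (h1.mono sphere_subset_closedBall)

theorem bd_preconn (ht : t ∈ X.T) : IsPreconnected (X.bd t) := by
  obtain ⟨φ, h1, h2, h3, h4⟩ := X.disc t ht
  have h5 : X.bd t = φ '' sphere 0 1 := h4.symm
  rw [h5]
  exact (SCC.preconn (scc_sphere one_pos)).image φ (h1.mono sphere_subset_closedBall)

theorem op_nonempty (ht : t ∈ X.T) : (X.C t \ X.bd t).Nonempty := by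
  obtain ⟨φ, h1, h2, h3, h4⟩ := X.disc t ht
  have h5 : X.bd t = φ '' sphere 0 1 := h4.symm
  have h0 : (0 : ℂ) ∈ closedBall (0 : ℂ) 1 := mem_closedBall_self zero_le_one
  refine ⟨φ 0, ?_, ?_⟩
  · rw [← h3]
    exact mem_image_of_mem φ h0
  · rw [h5]
    rintro ⟨z, hz, hz0⟩
    have h6 : z = 0 := h2 (sphere_subset_closedBall hz) h0 hz0
    rw [h6, mem_sphere, dist_self] at hz
    exact zero_ne_one hz

theorem tri_infinite (ht : t ∈ X.T) : (X.C t).Infinite := by
  obtain ⟨φ, h1, h2, h3, h4⟩ := X.disc t ht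
  rw [← h3]
  exact (infinite_of_mem_nhds (0 : ℂ) (closedBall_mem_nhds _ one_pos)).image h2

variable [T2Space M]

theorem edge_triv (he : e.card = 2) : Triv (X.C e) := by
  obtain ⟨i, j, hij, rfl⟩ := Finset.card_eq_two.1 he
  exact (X.arc i j hij).triv

theorem tri_triv (ht : t ∈ X.T) : Triv (X.C t) := by
  obtain ⟨φ, h1, h2, h3, h4⟩ := X.disc t ht
  rw [← h3]
  refine Triv.image (isCompact_closedBall 0 1) ?_ h1 h2
  have h0 : (0 : ℂ) ∈ closedBall (0 : ℂ) 1 := mem_closedBall_self zero_le_one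
  exact triv_star (isCompact_closedBall 0 1) h0 ((convex_closedBall (0 : ℂ) 1).starConvex h0)

theorem op_isOpen (ht : t ∈ X.T) : IsOpen (X.C t \ X.bd t) := by
  classical
  have h1 : (X.C t \ X.bd t)ᶜ = X.bd t ∪ ⋃ t' ∈ X.T.erase t, X.C t' := by
    ext x
    rw [mem_compl_iff, mem_sdiff, mem_union, mem_iUnion₂]
    constructor
    · intro h
      by_cases hx : x ∈ X.bd t
      · exact Or.inl hx
      · right
        obtain ⟨t', ht', hx'⟩ := X.cover x
        refine ⟨t', ?_, hx'⟩
        rw [Finset.mem_erase]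
        refine ⟨?_, ht'⟩
        rintro rfl
        exact h ⟨hx', hx⟩
    · rintro (h | ⟨t', ht', hx'⟩) ⟨h1, h2⟩
      · exact h2 h
      · rw [Finset.mem_erase] at ht'
        apply h2
        refine X.inter_bd (s := t') ?_ ⟨h1, hx'⟩
        intro hsub
        apply ht'.1
        exact (Finset.eq_of_subset_of_card_le hsub (by rw [X.card t ht, X.card t' ht'.2])).symm
  rw [← isClosed_compl_iff, h1]
  refine (X.bd_compact ht).isClosed.union ?_
  refine isClosed_biUnion_finset fun t' ht' => ?_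
  exact (X.tri_compact (Finset.mem_of_mem_erase ht')).isClosed

end Tri

end Pool.Agent.H40.PZ
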