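import Pool.Agent.H40.PZ.Sub
import Pool.Agent.H61.PO.PE1

/-!
# PZ-13: every edge is in at least two triangles

`two_le`: `e = {i, j}`, `m = (1/2) p i + (1/2) p j ∈ Sx p e ⊆ uniq f` (`low`), `m = f y`.  `m ∈ Sx p t` iff `e ⊆ t` (coordinates `c i m = c j m = 1/2`, the others `0`).  As `m ∈ range f` there is `t ∈ T` with `e ⊆ t`.
Suppose there is no other one.  `U = (⋃ t' ∈ T, t' ≠ t, f ⁻¹' Sx p t')ᶜ` is open (finite union of closed sets), contains `y`, and `f x ∈ Sx p t` for all `x ∈ U` (`rng`).  `open_in_plane` (file PO/PE1.lean) for `A = Sx p t`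
(`Sx_dim`: dimension 2), `N = U`: there is an open set `O ∋ m` with `O ∩ affineSpan (Sx p t) ⊆ f '' U ⊆ Sx p t`.  Let `k` be the third element of `t`.  `v_τ = m + τ (m - p k) = (1 + τ) m + (-τ) p k` tends to `m` for `τ -> 0`,
is in the affine span (`affineSpan` of the convex hull; line through two points of `Sx p t`), so `v_τ ∈ Sx p t` for a small `τ > 0`; but `c k (v_τ) = (1 + τ) * 0 + (-τ) * 1 < 0`: contradiction.
-/

namespace Pool.Agent.H40.PZ

open Set Topology Pool.Agent.H61.PO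

variable {M : Type*} [TopologicalSpace M] [CompactSpace M] [T2Space M] [Nonempty M]
  {E : Type*} [NormedAddCommGroup E] [NormedSpace ℝ E] [FiniteDimensional ℝ E] {f : M → E}

theorem Dat.two_le (D : Dat f) (hM : Surf M) (hf : Tight f)
    (hfull : affineSpan ℝ (range f) = ⊤) {e : Finset (Fin (Module.finrank ℝ E + 1))}
    (he : e.card = 2) : 2 ≤ (D.T.filter (fun t => e ⊆ t)).card := by
  obtain ⟨i, j, hij, rfl⟩ := Finset.card_eq_two.1 he
  obtain ⟨m, hmdef⟩ : ∃ m : E, m = (1 / 2 : ℝ) • D.p i + (1 / 2 : ℝ) • D.p j := ⟨_, rfl⟩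
  have hc : ∀ l, D.B.c l m = 1 / 2 * (if l = i then 1 else 0) + 1 / 2 * (if l = j then 1 else 0) := by
    intro l
    rw [hmdef, D.B.aff l _ _ _ _ (by norm_num), D.B.self, D.B.self]
  have hci : D.B.c i m = 1 / 2 := by
    rw [hc, if_pos rfl, if_neg hij]
    norm_num
  have hcj : D.B.c j m = 1 / 2 := by
    rw [hc, if_pos rfl, if_neg hij.symm]
    norm_num
  have hc0 : ∀ l, l ∉ ({i, j} : Finset (Fin (Module.finrank ℝ E + 1))) → D.B.c l m = 0 := by
    intro l hl
    rw [Finset.mem_insert, Finset.mem_singleton, not_or] at hl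
    rw [hc, if_neg hl.1, if_neg hl.2]
    norm_num
  have hcn : ∀ l, 0 ≤ D.B.c l m := by
    intro l
    rw [hc]
    split_ifs <;> norm_num
  have hm : m ∈ Sx D.p {i, j} := (D.B.hull _ _).2 ⟨hcn, hc0⟩
  have hsub : ∀ t, m ∈ Sx D.p t → ({i, j} : Finset (Fin (Module.finrank ℝ E + 1))) ⊆ t := by
    intro t ht l hl
    have h1 := ((D.B.hull _ _).1 ht).2
    by_contra hlt
    have h2 := h1 l hlt
    rw [Finset.mem_insert, Finset.mem_singleton] at hl
    rcases hl with rfl | rfl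
    · rw [hci] at h2
      norm_num at h2
    · rw [hcj] at h2
      norm_num at h2
  obtain ⟨y, hy⟩ := D.low hfull hf he.le hm
  have hfy : f y = m := by
    have h1 : y ∈ f ⁻¹' {m} := by
      rw [hy]
      exact mem_singleton y
    exact h1
  have hrm : m ∈ ⋃ t ∈ D.T, Sx D.p t := by
    rw [← D.rng, ← hfy]
    exact mem_range_self y
  simp only [mem_iUnion] at hrm
  obtain ⟨t, ht, hmt⟩ := hrm
  by_contra hcon
  have hle : (D.T.filter (fun t => ({i, j} : Finset (Fin (Module.finrank ℝ E + 1))) ⊆ t)).card ≤ 1 := by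
    omega
  have huni : ∀ t' ∈ D.T, m ∈ Sx D.p t' → t' = t := fun t' ht' hm' =>
    Finset.card_le_one.1 hle t' (Finset.mem_filter.2 ⟨ht', hsub t' hm'⟩) t
      (Finset.mem_filter.2 ⟨ht, hsub t hmt⟩)
  obtain ⟨U, hUdef⟩ : ∃ U : Set M, U = (⋃ t' ∈ D.T.erase t, f ⁻¹' Sx D.p t')ᶜ := ⟨_, rfl⟩
  have hU : IsOpen U := by
    rw [hUdef]
    exact (isClosed_biUnion_finset fun t' _ =>
      ((Sx_compact t').isClosed).preimage hf.cont).isOpen_compl
  have hyU : y ∈ U := by
    rw [hUdef]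
    intro h1
    simp only [mem_iUnion] at h1
    obtain ⟨t', ht', h2⟩ := h1
    have h3 : f y ∈ Sx D.p t' := h2
    rw [hfy] at h3
    exact (Finset.mem_erase.1 ht').1 (huni t' (Finset.mem_erase.1 ht').2 h3)
  have hUs : ∀ x ∈ U, f x ∈ Sx D.p t := by
    intro x hx
    have h1 : f x ∈ ⋃ t ∈ D.T, Sx D.p t := by
      rw [← D.rng]
      exact mem_range_self x
    simp only [mem_iUnion] at h1
    obtain ⟨t', ht', h2⟩ := h1
    by_cases h3 : t' = t
    · rw [← h3]
      exact h2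
    · rw [hUdef] at hx
      exfalso
      apply hx
      simp only [mem_iUnion]
      exact ⟨t', Finset.mem_erase.2 ⟨h3, ht'⟩, h2⟩
  have hcard := D.card t ht
  obtain ⟨O, hO, hmO, hOU⟩ := open_in_plane hM hf.cont hf.linj (A := Sx D.p t)
    (Sx_dim D.hp (m := 2) hcard) hU (fun x hx => subset_affineSpan ℝ _ (hUs x hx)) hyU
    (hU.mem_nhds hyU)
  obtain ⟨k, hkt, hk⟩ : ∃ k ∈ t, k ∉ ({i, j} : Finset (Fin (Module.finrank ℝ E + 1))) := by
    by_contra hcon2
    push Not at hcon2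
    have h1 := Finset.card_le_card (s := t) (t := {i, j}) hcon2
    omega
  have hcont : Continuous fun τ : ℝ => (1 + τ) • m + (-τ) • D.p k := by fun_prop
  have h0 : (fun τ : ℝ => (1 + τ) • m + (-τ) • D.p k) 0 ∈ O := by
    simp only [add_zero, one_smul, neg_zero, zero_smul]
    rw [← hfy]
    exact hmO
  have hev : ∀ᶠ τ in 𝓝[>] (0 : ℝ), (1 + τ) • m + (-τ) • D.p k ∈ O :=
    (hcont.continuousAt.eventually (hO.mem_nhds h0)).filter_mono nhdsWithin_le_nhds
  obtain ⟨τ, hτO, hτ⟩ := (hev.and self_mem_nhdsWithin).exists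
  have hτ' : (0 : ℝ) < τ := hτ
  have hv : ∀ l, D.B.c l ((1 + τ) • m + (-τ) • D.p k) =
      (1 + τ) * D.B.c l m + (-τ) * (if l = k then 1 else 0) := by
    intro l
    rw [D.B.aff l _ _ _ _ (by ring), D.B.self]
  have hspan : (1 + τ) • m + (-τ) • D.p k ∈ affineSpan ℝ (Sx D.p t) := by
    unfold Sx
    rw [affineSpan_convexHull, D.B.span]
    intro l hl
    rw [hv, hc0 l (fun h => hl (hsub t hmt h)), if_neg (fun h : l = k => hl (by rw [h]; exact hkt))]
    ring
  obtain ⟨x, hxU, hfx⟩ := hOU _ hτO hspan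
  have h1 := hUs x hxU
  rw [hfx] at h1
  have h2 := ((D.B.hull _ _).1 h1).1 k
  rw [hv, hc0 k hk, if_pos rfl] at h2
  linarith

end Pool.Agent.H40.PZ
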